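import Mathlib

/-!
Points `(m, k)` with `m ≡ k b (mod p)`, `K ≤ k < 2 K ≤ p`, `1 ≤ m ≤ M` and a large greatest common
divisor are few.
-/

set_option autoImplicit false

open Finset

namespace Pool.Agent.V7H18.DC

/-- integers of a residue class in `[1, X]`, from above -/
lemma card_class_le (p X : ℕ) (c : ZMod p) :
    ((Icc 1 X).filter fun m : ℕ => (m : ZMod p) = c).card ≤ X / p + 1 := by
  classical
  rw [← card_range (X / p + 1)]
  refine card_le_card_of_injOn (fun m => m / p) ?_ ?_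
  · intro m hm
    rw [mem_coe, mem_filter, mem_Icc] at hm
    rw [mem_coe, mem_range]
    exact Nat.lt_succ_of_le (Nat.div_le_div_right hm.1.2)
  · intro m hm m' hm' h
    rw [mem_coe, mem_filter] at hm hm'
    have h1 : (m : ZMod p) = (m' : ZMod p) := hm.2.trans hm'.2.symm
    have h2 : m % p = m' % p := (ZMod.natCast_eq_natCast_iff' _ _ _).mp h1
    simp only at h
    rw [← Nat.div_add_mod m p, ← Nat.div_add_mod m' p, h2, h]

/-- integers of a residue class in `[1, X]`, from below -/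
lemma le_card_class (p X : ℕ) (hp : 0 < p) (c : ZMod p) :
    X / p ≤ ((Icc 1 X).filter fun m : ℕ => (m : ZMod p) = c).card := by
  classical
  have : NeZero p := ⟨hp.ne'⟩
  set r := (c - 1).val with hr
  have hrp : r < p := ZMod.val_lt _
  have hrc : ((r + 1 : ℕ) : ZMod p) = c := by
    push_cast
    rw [hr, ZMod.natCast_zmod_val]
    ring
  rw [← card_range (X / p)]
  refine card_le_card_of_injOn (fun i => r + 1 + i * p) ?_ ?_
  · intro i hi
    rw [mem_coe, mem_range] at hi
    rw [mem_coe, mem_filter, mem_Icc]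
    refine ⟨⟨?_, ?_⟩, ?_⟩
    · show 1 ≤ r + 1 + i * p
      omega
    · have h1 : (i + 1) * p ≤ X / p * p := Nat.mul_le_mul_right _ hi
      have h2 : X / p * p ≤ X := Nat.div_mul_le_self _ _
      have h3 : (i + 1) * p = i * p + p := by ring
      show r + 1 + i * p ≤ X
      omega
    · show ((r + 1 + i * p : ℕ) : ZMod p) = c
      rw [Nat.cast_add, hrc]
      simp
  · intro i _ j _ h
    simp only at h
    have : i * p = j * p := by omega
    exact Nat.eq_of_mul_eq_mul_right hp this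

open Classical in
/-- the points with a large greatest common divisor -/
noncomputable def Bad (K M G p : ℕ) (b : ZMod p) : Finset (ℕ × ℕ) :=
  ((Icc 1 M) ×ˢ (Ico K (2 * K))).filter fun x =>
    (x.1 : ZMod p) = (x.2 : ZMod p) * b ∧ G < Nat.gcd x.1 x.2

open Classical in
lemma card_lattice_le (p A B : ℕ) (b : ZMod p) :
    (((Icc 1 A) ×ˢ (Icc 1 B)).filter fun x : ℕ × ℕ =>
      (x.1 : ZMod p) = (x.2 : ZMod p) * b).card ≤ (A / p + 1) * B := by
  have h := card_le_mul_card_image_of_maps_to (f := Prod.snd)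
    (s := ((Icc 1 A) ×ˢ (Icc 1 B)).filter fun x : ℕ × ℕ =>
      (x.1 : ZMod p) = (x.2 : ZMod p) * b) (t := Icc 1 B)
    (fun x hx => (mem_product.mp (mem_filter.mp hx).1).2) (A / p + 1) ?_
  · rwa [Nat.card_Icc, Nat.add_sub_cancel] at h
  · intro k _
    refine le_trans ?_ (card_class_le p A ((k : ZMod p) * b))
    refine card_le_card_of_injOn Prod.fst ?_ ?_
    · intro x hx
      rw [mem_coe, mem_filter, mem_filter, mem_product] at hx
      rw [mem_coe, mem_filter]
      exact ⟨hx.1.1.1, by rw [hx.1.2, hx.2]⟩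
    · intro x hx y hy h
      rw [mem_coe, mem_filter] at hx hy
      exact Prod.ext h (hx.2.trans hy.2.symm)

theorem card_bad_nat {K M G p : ℕ} (hp : p.Prime) (hKp : 2 * K ≤ p) (b : ZMod p) :
    (Bad K M G p b).card ≤ ∑ g ∈ Ioc G (2 * K), (M / g / p + 1) * (2 * K / g) := by
  classical
  have : Fact p.Prime := ⟨hp⟩
  have hsub : Bad K M G p b ⊆ (Ioc G (2 * K)).biUnion fun g =>
      (((Icc 1 (M / g)) ×ˢ (Icc 1 (2 * K / g))).filter fun x : ℕ × ℕ =>
        (x.1 : ZMod p) = (x.2 : ZMod p) * b).image fun x => (g * x.1, g * x.2) := by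
    intro x hx
    rw [Bad, mem_filter, mem_product, mem_Icc, mem_Ico] at hx
    obtain ⟨⟨⟨h1, h2⟩, h3, h4⟩, h5, h6⟩ := hx
    set g := Nat.gcd x.1 x.2 with hg
    have hg0 : 0 < g := Nat.gcd_pos_of_pos_left _ (by omega)
    have hx2 : 0 < x.2 := by omega
    have hgx : g ≤ x.2 := Nat.gcd_le_right _ hx2
    obtain ⟨u, hu⟩ := Nat.gcd_dvd_left x.1 x.2
    obtain ⟨v, hv⟩ := Nat.gcd_dvd_right x.1 x.2
    rw [← hg] at hu hv
    rw [mem_biUnion]
    refine ⟨g, ?_, ?_⟩
    · rw [mem_Ioc]
      exact ⟨h6, by omega⟩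
    · rw [mem_image]
      refine ⟨(u, v), ?_, ?_⟩
      · rw [mem_filter, mem_product, mem_Icc, mem_Icc]
        have hu0 : 0 < u := by
          rcases Nat.eq_zero_or_pos u with h | h
          · rw [h] at hu
            omega
          · exact h
        have hv0 : 0 < v := by
          rcases Nat.eq_zero_or_pos v with h | h
          · rw [h] at hv
            omega
          · exact h
        refine ⟨⟨⟨hu0, ?_⟩, hv0, ?_⟩, ?_⟩
        · rw [Nat.le_div_iff_mul_le hg0, mul_comm, ← hu]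
          exact h2
        · rw [Nat.le_div_iff_mul_le hg0, mul_comm, ← hv]
          exact h4.le
        · have hgz : (g : ZMod p) ≠ 0 := by
            intro h
            rw [ZMod.natCast_eq_zero_iff] at h
            have := Nat.le_of_dvd hg0 h
            omega
          have h7 : (g : ZMod p) * (u : ZMod p) = (g : ZMod p) * ((v : ZMod p) * b) := by
            rw [← mul_assoc, ← Nat.cast_mul, ← Nat.cast_mul, ← hu, ← hv]
            exact h5
          exact mul_left_cancel₀ hgz h7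
      · exact Prod.ext hu.symm hv.symm
  refine (card_le_card hsub).trans (card_biUnion_le.trans (sum_le_sum fun g _ => ?_))
  exact card_image_le.trans (card_lattice_le p (M / g) (2 * K / g) b)

/-- **few points with many multiples** -/
theorem card_bad_le {K M G p : ℕ} (hp : p.Prime) (hKp : 2 * K ≤ p) (hG : 1 ≤ G) (b : ZMod p) :
    ((Bad K M G p b).card : ℝ) ≤ 4 * K * M / (G * p) + 2 * K * (1 + Real.log (2 * K)) := by
  have hp0 : (0 : ℝ) < p := by exact_mod_cast hp.pos
  have hG0 : (0 : ℝ) < G := by exact_mod_cast hG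
  have h1 : ((Bad K M G p b).card : ℝ)
      ≤ ∑ g ∈ Ioc G (2 * K), (2 * K * M / p * ((g : ℝ) ^ 2)⁻¹ + 2 * K * (g : ℝ)⁻¹) := by
    have h := card_bad_nat (K := K) (M := M) (G := G) hp hKp b
    have h' : ((Bad K M G p b).card : ℝ)
        ≤ ((∑ g ∈ Ioc G (2 * K), (M / g / p + 1) * (2 * K / g) : ℕ) : ℝ) := by exact_mod_cast h
    refine h'.trans ?_
    rw [Nat.cast_sum]
    refine sum_le_sum fun g hg => ?_
    have hg0 : (0 : ℝ) < g := by
      have := (mem_Ioc.mp hg).1
      exact_mod_cast (by omega : 0 < g)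
    push_cast
    have e1 : ((M / g / p : ℕ) : ℝ) ≤ M / g / p := by
      refine Nat.cast_div_le.trans ?_
      gcongr
      exact Nat.cast_div_le
    have e2 : ((2 * K / g : ℕ) : ℝ) ≤ 2 * K / g := by
      have := Nat.cast_div_le (α := ℝ) (m := 2 * K) (n := g)
      push_cast at this
      exact this
    calc (((M / g / p : ℕ) : ℝ) + 1) * ((2 * K / g : ℕ) : ℝ)
        ≤ ((M : ℝ) / g / p + 1) * (2 * K / g) := by gcongr
      _ = _ := by
        field_simp
  refine h1.trans ?_
  rw [sum_add_distrib, ← mul_sum, ← mul_sum]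
  have h2 : ∑ g ∈ Ioc G (2 * K), ((g : ℝ) ^ 2)⁻¹ ≤ 2 / G := by
    have h := sum_Ioo_inv_sq_le (α := ℝ) G (2 * K + 1)
    have e : Ioc G (2 * K) = Ioo G (2 * K + 1) := by
      ext g
      rw [mem_Ioc, mem_Ioo]
      omega
    rw [e]
    refine h.trans ?_
    gcongr
    linarith
  have h3 : ∑ g ∈ Ioc G (2 * K), (g : ℝ)⁻¹ ≤ 1 + Real.log (2 * K) := by
    have h := harmonic_le_one_add_log (2 * K)
    have e : ((harmonic (2 * K) : ℚ) : ℝ) = ∑ g ∈ Icc 1 (2 * K), (g : ℝ)⁻¹ := by
      rw [harmonic_eq_sum_Icc]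
      push_cast
      rfl
    rw [e] at h
    push_cast at h
    refine le_trans ?_ h
    refine sum_le_sum_of_subset_of_nonneg ?_ (fun i _ _ => by positivity)
    intro g hg
    rw [mem_Ioc] at hg
    rw [mem_Icc]
    omega
  have h4 : 2 * (K : ℝ) * M / p * ∑ g ∈ Ioc G (2 * K), ((g : ℝ) ^ 2)⁻¹ ≤ 4 * K * M / (G * p) := by
    calc _ ≤ 2 * (K : ℝ) * M / p * (2 / G) := by gcongr
      _ = _ := by
        field_simp
        ring
  have h5 : 2 * (K : ℝ) * ∑ g ∈ Ioc G (2 * K), (g : ℝ)⁻¹ ≤ 2 * K * (1 + Real.log (2 * K)) := by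
    gcongr
  linarith

end Pool.Agent.V7H18.DC
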