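import Mathlib

/-!
Points of a planar lattice with few multiples: if the points `(m, k)` of a finite set `S`, with
`K ≤ k < 2 K` and `1 ≤ m ≤ M`, have pairwise determinants divisible by `D` and `gcd (m, k) ≤ G`,
then `S` has at most `(4 K M / D + 1) G` points.
-/

set_option autoImplicit false

open Finset

namespace Pool.Agent.V7H18.DC

/-- equal slopes and equal greatest common divisors -/
lemma eq_of_slope {m k m' k' : ℕ} (hk : 0 < k) (hk' : 0 < k') (h : m * k' = m' * k)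
    (hg : Nat.gcd m k = Nat.gcd m' k') : m = m' ∧ k = k' := by
  have hg0 : 0 < Nat.gcd m k := Nat.gcd_pos_of_pos_right _ hk
  have h1 : k * Nat.gcd m' k' = k' * Nat.gcd m k := by
    rw [← Nat.gcd_mul_left, ← Nat.gcd_mul_left]
    congr 1
    · rw [mul_comm k m', ← h, mul_comm]
    · exact mul_comm _ _
  have h2 : k = k' := by
    rw [← hg] at h1
    exact Nat.eq_of_mul_eq_mul_right hg0 h1
  refine ⟨?_, h2⟩
  subst h2
  exact Nat.eq_of_mul_eq_mul_right hk h

/-- **few points with few multiples** -/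
theorem card_points_le {S : Finset (ℕ × ℕ)} {K M D G : ℕ} (hD : 0 < D) (hK : 0 < K)
    (hS : ∀ x ∈ S, 1 ≤ x.1 ∧ x.1 ≤ M ∧ K ≤ x.2 ∧ x.2 < 2 * K ∧ Nat.gcd x.1 x.2 ≤ G)
    (hdet : ∀ x ∈ S, ∀ y ∈ S, (D : ℤ) ∣ (x.1 : ℤ) * y.2 - y.1 * x.2) :
    S.card ≤ (4 * K * M / D + 1) * G := by
  classical
  have hcard : (range (4 * K * M / D + 1) ×ˢ Icc 1 G).card = (4 * K * M / D + 1) * G := by
    rw [card_product, card_range, Nat.card_Icc, Nat.add_sub_cancel]
  rw [← hcard]
  refine card_le_card_of_injOn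
    (fun x => (4 * K * K * x.1 / (x.2 * D), Nat.gcd x.1 x.2)) ?_ ?_
  · intro x hx
    obtain ⟨h1, h2, h3, h4, h5⟩ := hS x (mem_coe.mp hx)
    rw [mem_coe, mem_product, mem_range, mem_Icc]
    refine ⟨?_, ?_, h5⟩
    · apply Nat.lt_succ_of_le
      show 4 * K * K * x.1 / (x.2 * D) ≤ 4 * K * M / D
      have e : 4 * K * M / D = (4 * K * M * K) / (D * K) := by
        rw [Nat.mul_div_mul_right _ _ hK]
      rw [e]
      calc 4 * K * K * x.1 / (x.2 * D) ≤ 4 * K * K * x.1 / (K * D) :=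
            Nat.div_le_div_left (Nat.mul_le_mul_right _ h3) (Nat.mul_pos hK hD)
        _ ≤ (4 * K * M * K) / (D * K) := by
            rw [mul_comm K D]
            apply Nat.div_le_div_right
            calc 4 * K * K * x.1 ≤ 4 * K * K * M := Nat.mul_le_mul_left _ h2
              _ = 4 * K * M * K := by ring
    · exact Nat.gcd_pos_of_pos_right _ (by omega)
  · intro x hx y hy hxy
    obtain ⟨h1, h2, h3, h4, h5⟩ := hS x (mem_coe.mp hx)
    obtain ⟨h1', h2', h3', h4', h5'⟩ := hS y (mem_coe.mp hy)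
    simp only [Prod.mk.injEq] at hxy
    obtain ⟨hfl, hgcd⟩ := hxy
    have hx2 : 0 < x.2 := by omega
    have hy2 : 0 < y.2 := by omega
    have hxD : 0 < x.2 * D := Nat.mul_pos hx2 hD
    have hyD : 0 < y.2 * D := Nat.mul_pos hy2 hD
    have h := hdet x hx y hy
    have h' := hdet y hy x hx
    set q := 4 * K * K * x.1 / (x.2 * D) with hq
    have a1 : q * (x.2 * D) ≤ 4 * K * K * x.1 := Nat.div_mul_le_self _ _
    have a2 : 4 * K * K * x.1 < (q + 1) * (x.2 * D) :=
      (Nat.div_lt_iff_lt_mul hxD).mp (Nat.lt_succ_self q)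
    have b1 : q * (y.2 * D) ≤ 4 * K * K * y.1 := by
      rw [hfl]
      exact Nat.div_mul_le_self _ _
    have b2 : 4 * K * K * y.1 < (q + 1) * (y.2 * D) := by
      apply (Nat.div_lt_iff_lt_mul hyD).mp
      rw [← hfl]
      exact Nat.lt_succ_self q
    have key : ∀ u v u' v' : ℕ, 0 < v → 0 < v' → v < 2 * K → v' < 2 * K →
        q * (v * D) ≤ 4 * K * K * u → 4 * K * K * u' < (q + 1) * (v' * D) →
        (u' : ℤ) * v - u * v' < D := by
      intro u v u' v' hv hv' hvK hvK' hu hu'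
      have c1 : q * (v * D) * v' ≤ 4 * K * K * u * v' := Nat.mul_le_mul_right _ hu
      have c2 : 4 * K * K * u' * v < (q + 1) * (v' * D) * v := Nat.mul_lt_mul_of_pos_right hu' hv
      have c3 : v * v' ≤ 2 * K * (2 * K) := Nat.mul_le_mul hvK.le hvK'.le
      have c4 : v * v' * D ≤ 2 * K * (2 * K) * D := Nat.mul_le_mul_right _ c3
      have d1 : (q : ℤ) * (v * D) * v' ≤ 4 * K * K * u * v' := by exact_mod_cast c1
      have d2 : (4 : ℤ) * K * K * u' * v < (q + 1) * (v' * D) * v := by exact_mod_cast c2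
      have d4 : (v : ℤ) * v' * D ≤ 2 * K * (2 * K) * D := by exact_mod_cast c4
      have hKK : (0 : ℤ) < 4 * K * K := by positivity
      have : (4 * K * K : ℤ) * ((u' : ℤ) * v - u * v') < (4 * K * K : ℤ) * D := by nlinarith
      exact lt_of_mul_lt_mul_left this hKK.le
    have k1 := key x.1 x.2 y.1 y.2 hx2 hy2 h4 h4' a1 b2
    have k2 := key y.1 y.2 x.1 x.2 hy2 hx2 h4' h4 b1 a2
    have hz : (x.1 : ℤ) * y.2 - y.1 * x.2 = 0 := by
      apply Int.eq_zero_of_abs_lt_dvd h
      rw [abs_lt]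
      constructor <;> linarith
    have hz' : x.1 * y.2 = y.1 * x.2 := by
      have : (x.1 : ℤ) * y.2 = y.1 * x.2 := by linarith
      exact_mod_cast this
    obtain ⟨r1, r2⟩ := eq_of_slope hx2 hy2 hz' hgcd
    exact Prod.ext r1 r2

end Pool.Agent.V7H18.DC
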