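import Mathlib
import Pool.Agent.V7H18.DC.Slopes
import Pool.Agent.V7H18.DC.Bad

/-!
Second moment over the dilates `(k / l) a` of a choice of residue classes: finite form.
-/

set_option autoImplicit false

open Finset

namespace Pool.Agent.V7H18.DC

/-- `l n ≡ k a(p) (mod p)` -/
def Hit (a : (p : ℕ) → ZMod p) (k l n p : ℕ) : Prop :=
  ((l * n : ℕ) : ZMod p) = (k : ZMod p) * a p

open Classical in
/-- the number of the primes of `Q` whose dilated class contains `n` -/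
noncomputable def mult (Q : Finset ℕ) (a : (p : ℕ) → ZMod p) (k l n : ℕ) : ℕ :=
  (Q.filter fun p => Hit a k l n p).card

/-- the triples `(k, l, n)` -/
def Pts (K L N : ℕ) : Finset (ℕ × ℕ × ℕ) :=
  (Ico K (2 * K)) ×ˢ ((Ico L (2 * L)) ×ˢ (Icc 1 N))

/-- `(k, l, n) ↦ (l n, k)` -/
def phi (x : ℕ × ℕ × ℕ) : ℕ × ℕ := (x.2.1 * x.2.2, x.1)

lemma mem_Pts {K L N k l n : ℕ} : (k, l, n) ∈ Pts K L N ↔
    (K ≤ k ∧ k < 2 * K) ∧ (L ≤ l ∧ l < 2 * L) ∧ 1 ≤ n ∧ n ≤ N := by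
  rw [Pts, mem_product, mem_product, mem_Ico, mem_Ico, mem_Icc]

lemma card_le_image {K L N τ : ℕ}
    (hτ : ∀ m : ℕ, 1 ≤ m → m ≤ 2 * L * N → ((Ico L (2 * L)).filter (· ∣ m)).card ≤ τ)
    {T : Finset (ℕ × ℕ × ℕ)} (hT : T ⊆ Pts K L N) : T.card ≤ τ * (T.image phi).card := by
  classical
  refine card_le_mul_card_image T τ fun b hb => ?_
  obtain ⟨x, hx, hxb⟩ := mem_image.mp hb
  obtain ⟨k, l, n⟩ := x
  obtain ⟨-, ⟨hl, hl2⟩, hn1, hnN⟩ := mem_Pts.mp (hT hx)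
  have hb1 : b.1 = l * n := by rw [← hxb]; rfl
  have hm1 : 1 ≤ b.1 := by
    rw [hb1]
    exact Nat.mul_pos (by omega) (by omega)
  have hm2 : b.1 ≤ 2 * L * N := by
    rw [hb1]
    exact Nat.mul_le_mul hl2.le hnN
  refine le_trans ?_ (hτ b.1 hm1 hm2)
  refine card_le_card_of_injOn (fun y => y.2.1) ?_ ?_
  · intro y hy
    rw [mem_coe, mem_filter] at hy
    obtain ⟨k', l', n'⟩ := y
    obtain ⟨-, ⟨hl', hl2'⟩, -, -⟩ := mem_Pts.mp (hT hy.1)
    rw [mem_coe, mem_filter, mem_Ico]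
    refine ⟨⟨hl', hl2'⟩, ?_⟩
    rw [← hy.2]
    exact Dvd.intro _ rfl
  · intro y hy z hz h
    rw [mem_coe, mem_filter] at hy hz
    obtain ⟨k1, l1, n1⟩ := y
    obtain ⟨k2, l2, n2⟩ := z
    obtain ⟨-, ⟨hl1, -⟩, -, -⟩ := mem_Pts.mp (hT hy.1)
    have h1 : phi (k1, l1, n1) = phi (k2, l2, n2) := hy.2.trans hz.2.symm
    simp only [phi, Prod.mk.injEq] at h1
    simp only at h
    subst h
    have hn : n1 = n2 := Nat.eq_of_mul_eq_mul_left (by omega) h1.1
    rw [h1.2, hn]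

/-- for an invertible `l` the dilated class is a residue class -/
lemma hit_iff {a : (p : ℕ) → ZMod p} {k l n p : ℕ} (hp : p.Prime) (hl : 0 < l) (hlp : l < p) :
    Hit a k l n p ↔ (n : ZMod p) = (k : ZMod p) * (l : ZMod p)⁻¹ * a p := by
  have : Fact p.Prime := ⟨hp⟩
  have hl0 : (l : ZMod p) ≠ 0 := by
    intro h
    rw [ZMod.natCast_eq_zero_iff] at h
    have := Nat.le_of_dvd hl h
    omega
  rw [Hit, Nat.cast_mul]
  constructor
  · intro h
    apply mul_left_cancel₀ hl0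
    rw [h]
    field_simp
  · intro h
    rw [h]
    field_simp

open Classical in
lemma card_hit_le {a : (p : ℕ) → ZMod p} {k l p : ℕ} (N : ℕ) (hp : p.Prime) (hl : 0 < l)
    (hlp : l < p) : ((Icc 1 N).filter fun n => Hit a k l n p).card ≤ N / p + 1 := by
  have : ((Icc 1 N).filter fun n => Hit a k l n p)
      = (Icc 1 N).filter fun n : ℕ => (n : ZMod p) = (k : ZMod p) * (l : ZMod p)⁻¹ * a p :=
    filter_congr fun n _ => hit_iff hp hl hlp
  rw [this]
  convert card_class_le p N _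

open Classical in
lemma le_card_hit {a : (p : ℕ) → ZMod p} {k l p : ℕ} (N : ℕ) (hp : p.Prime) (hl : 0 < l)
    (hlp : l < p) : N / p ≤ ((Icc 1 N).filter fun n => Hit a k l n p).card := by
  have : ((Icc 1 N).filter fun n => Hit a k l n p)
      = (Icc 1 N).filter fun n : ℕ => (n : ZMod p) = (k : ZMod p) * (l : ZMod p)⁻¹ * a p :=
    filter_congr fun n _ => hit_iff hp hl hlp
  rw [this]
  convert le_card_class p N hp.pos _

/-- the good points: `gcd (l n, k) ≤ G` -/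
def good (G N k l : ℕ) : Finset ℕ := (Icc 1 N).filter fun n => Nat.gcd (l * n) k ≤ G

/-- the bad points -/
def bad (G N k l : ℕ) : Finset ℕ := (Icc 1 N).filter fun n => ¬ Nat.gcd (l * n) k ≤ G

lemma sum_good_add_bad (G N k l : ℕ) (f : ℕ → ℕ) :
    ∑ n ∈ good G N k l, f n + ∑ n ∈ bad G N k l, f n = ∑ n ∈ Icc 1 N, f n :=
  sum_filter_add_sum_filter_not _ _ _

lemma sum_Pts (K L N : ℕ) (h : ℕ → ℕ → ℕ → ℕ) :
    ∑ k ∈ Ico K (2 * K), ∑ l ∈ Ico L (2 * L), ∑ n ∈ Icc 1 N, h k l n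
      = ∑ x ∈ Pts K L N, h x.1 x.2.1 x.2.2 := by
  rw [Pts, sum_product]
  refine sum_congr rfl fun k _ => ?_
  rw [sum_product]

/-- the bad points contribute little -/
lemma sum_bad_le {K L N τ G : ℕ} {Q : Finset ℕ} (a : (p : ℕ) → ZMod p)
    (hτ : ∀ m : ℕ, 1 ≤ m → m ≤ 2 * L * N → ((Ico L (2 * L)).filter (· ∣ m)).card ≤ τ) :
    ∑ k ∈ Ico K (2 * K), ∑ l ∈ Ico L (2 * L), ∑ n ∈ bad G N k l, mult Q a k l n
      ≤ ∑ p ∈ Q, τ * (Bad K (2 * L * N) G p (a p)).card := by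
  classical
  have e : ∑ k ∈ Ico K (2 * K), ∑ l ∈ Ico L (2 * L), ∑ n ∈ bad G N k l, mult Q a k l n
      = ∑ p ∈ Q, ((Pts K L N).filter fun x =>
          (¬ Nat.gcd (x.2.1 * x.2.2) x.1 ≤ G) ∧ Hit a x.1 x.2.1 x.2.2 p).card := by
    have e1 : ∀ k l : ℕ, ∑ n ∈ bad G N k l, mult Q a k l n
        = ∑ n ∈ Icc 1 N, ∑ p ∈ Q, if (¬ Nat.gcd (l * n) k ≤ G) ∧ Hit a k l n p then 1 else 0 := by
      intro k l
      rw [bad, sum_filter]
      refine sum_congr rfl fun n _ => ?_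
      by_cases h : ¬ Nat.gcd (l * n) k ≤ G
      · rw [if_pos h, mult, card_filter]
        exact sum_congr rfl fun p _ => by simp [h]
      · rw [if_neg h]
        symm
        apply sum_eq_zero
        intro p _
        rw [if_neg fun hh => h hh.1]
    simp only [e1]
    rw [sum_Pts K L N fun k l n =>
      ∑ p ∈ Q, if (¬ Nat.gcd (l * n) k ≤ G) ∧ Hit a k l n p then 1 else 0, sum_comm]
    refine sum_congr rfl fun p _ => ?_
    rw [card_filter]
  rw [e]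
  refine sum_le_sum fun p _ => ?_
  refine (card_le_image hτ (filter_subset _ _)).trans (Nat.mul_le_mul_left _ (card_le_card ?_))
  intro y hy
  obtain ⟨x, hx, rfl⟩ := mem_image.mp hy
  obtain ⟨k, l, n⟩ := x
  rw [mem_filter] at hx
  obtain ⟨⟨hk, hk2⟩, ⟨hl, hl2⟩, hn1, hnN⟩ := mem_Pts.mp hx.1
  obtain ⟨hg, hh⟩ := hx.2
  have hl0 : 0 < l := by omega
  have hn0 : 0 < n := by omega
  rw [Bad, mem_filter, mem_product, mem_Icc, mem_Ico]
  refine ⟨⟨⟨Nat.mul_pos hl0 hn0, Nat.mul_le_mul hl2.le hnN⟩, hk, hk2⟩, hh, ?_⟩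
  exact not_le.mp hg

open Classical in
/-- the good points on two classes -/
noncomputable def Two (K L N G : ℕ) (a : (p : ℕ) → ZMod p) (p q : ℕ) : Finset (ℕ × ℕ × ℕ) :=
  (Pts K L N).filter fun x => Nat.gcd (x.2.1 * x.2.2) x.1 ≤ G ∧
    Hit a x.1 x.2.1 x.2.2 p ∧ Hit a x.1 x.2.1 x.2.2 q

lemma sum_good_eq (K L N G : ℕ) (Q : Finset ℕ) (a : (p : ℕ) → ZMod p) :
    ∑ k ∈ Ico K (2 * K), ∑ l ∈ Ico L (2 * L), ∑ n ∈ good G N k l, mult Q a k l n ^ 2
      = ∑ p ∈ Q, ∑ q ∈ Q, (Two K L N G a p q).card := by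
  classical
  have e1 : ∀ k l : ℕ, ∑ n ∈ good G N k l, mult Q a k l n ^ 2
      = ∑ n ∈ Icc 1 N, ∑ p ∈ Q, ∑ q ∈ Q,
        if Nat.gcd (l * n) k ≤ G ∧ Hit a k l n p ∧ Hit a k l n q then 1 else 0 := by
    intro k l
    rw [good, sum_filter]
    refine sum_congr rfl fun n _ => ?_
    by_cases h : Nat.gcd (l * n) k ≤ G
    · rw [if_pos h, mult, card_filter, sq, sum_mul_sum]
      refine sum_congr rfl fun p _ => sum_congr rfl fun q _ => ?_
      by_cases h1 : Hit a k l n p <;> by_cases h2 : Hit a k l n q <;> simp [h, h1, h2]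
    · rw [if_neg h]
      symm
      apply sum_eq_zero
      intro p _
      apply sum_eq_zero
      intro q _
      rw [if_neg fun hh => h hh.1]
  simp only [e1]
  rw [sum_Pts K L N fun k l n => ∑ p ∈ Q, ∑ q ∈ Q,
    if Nat.gcd (l * n) k ≤ G ∧ Hit a k l n p ∧ Hit a k l n q then 1 else 0, sum_comm]
  refine sum_congr rfl fun p _ => ?_
  rw [sum_comm]
  refine sum_congr rfl fun q _ => ?_
  rw [Two, card_filter]

lemma card_two_le {K L N τ G : ℕ} (a : (p : ℕ) → ZMod p) (hK : 0 < K)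
    (hτ : ∀ m : ℕ, 1 ≤ m → m ≤ 2 * L * N → ((Ico L (2 * L)).filter (· ∣ m)).card ≤ τ)
    {p q : ℕ} (hp : p.Prime) (hq : q.Prime) (hpq : p ≠ q) :
    (Two K L N G a p q).card ≤ τ * ((4 * K * (2 * L * N) / (p * q) + 1) * G) := by
  classical
  have hsub : Two K L N G a p q ⊆ Pts K L N := filter_subset _ _
  refine (card_le_image hτ hsub).trans (Nat.mul_le_mul_left _ ?_)
  apply card_points_le (Nat.mul_pos hp.pos hq.pos) hK
  · intro y hy
    obtain ⟨x, hx, rfl⟩ := mem_image.mp hy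
    obtain ⟨k, l, n⟩ := x
    rw [Two, mem_filter] at hx
    obtain ⟨⟨hk, hk2⟩, ⟨hl, hl2⟩, hn1, hnN⟩ := mem_Pts.mp hx.1
    have hl0 : 0 < l := by omega
    have hn0 : 0 < n := by omega
    exact ⟨Nat.mul_pos hl0 hn0, Nat.mul_le_mul hl2.le hnN, hk, hk2, hx.2.1⟩
  · intro y hy z hz
    obtain ⟨x, hx, rfl⟩ := mem_image.mp hy
    obtain ⟨x', hx', rfl⟩ := mem_image.mp hz
    obtain ⟨k, l, n⟩ := x
    obtain ⟨k', l', n'⟩ := x'
    rw [Two, mem_filter] at hx hx'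
    have key : ∀ r : ℕ, Hit a k l n r → Hit a k' l' n' r →
        (r : ℤ) ∣ ((l * n : ℕ) : ℤ) * k' - ((l' * n' : ℕ) : ℤ) * k := by
      intro r h h'
      rw [← ZMod.intCast_zmod_eq_zero_iff_dvd]
      push_cast
      have h1 : (l : ZMod r) * n = k * a r := by
        have := h
        rw [Hit, Nat.cast_mul] at this
        exact this
      have h2 : (l' : ZMod r) * n' = k' * a r := by
        have := h'
        rw [Hit, Nat.cast_mul] at this
        exact this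
      rw [h1, h2]
      ring
    have h1 := key p hx.2.2.1 hx'.2.2.1
    have h2 := key q hx.2.2.2 hx'.2.2.2
    have hc : IsCoprime (p : ℤ) (q : ℤ) := by
      rw [Nat.isCoprime_iff_coprime]
      exact (Nat.coprime_primes hp hq).mpr hpq
    have h3 := hc.mul_dvd h1 h2
    rw [Nat.cast_mul]
    exact h3

lemma card_two_self_le {K L N G : ℕ} (a : (p : ℕ) → ZMod p) {p : ℕ} (hp : p.Prime)
    (hL : 2 * L ≤ p) : (Two K L N G a p p).card ≤ K * L * (N / p + 1) := by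
  classical
  have hsub : Two K L N G a p p ⊆ (Pts K L N).filter fun x => Hit a x.1 x.2.1 x.2.2 p := by
    intro x hx
    rw [Two, mem_filter] at hx
    rw [mem_filter]
    exact ⟨hx.1, hx.2.2.1⟩
  refine (card_le_card hsub).trans ?_
  rw [card_filter, ← sum_Pts K L N fun k l n => if Hit a k l n p then 1 else 0]
  have h1 : ∀ k ∈ Ico K (2 * K), ∑ l ∈ Ico L (2 * L), ∑ n ∈ Icc 1 N,
      (if Hit a k l n p then 1 else 0) ≤ L * (N / p + 1) := by
    intro k _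
    have h2 : ∀ l ∈ Ico L (2 * L), ∑ n ∈ Icc 1 N,
        (if Hit a k l n p then 1 else 0) ≤ N / p + 1 := by
      intro l hl
      rw [mem_Ico] at hl
      rw [← card_filter]
      exact card_hit_le N hp (by omega) (by omega)
    refine (sum_le_card_nsmul _ _ _ h2).trans ?_
    rw [Nat.card_Ico, smul_eq_mul]
    apply Nat.mul_le_mul_right
    omega
  refine (sum_le_card_nsmul _ _ _ h1).trans ?_
  rw [Nat.card_Ico, smul_eq_mul, mul_assoc]
  apply Nat.mul_le_mul_right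
  omega

end Pool.Agent.V7H18.DC
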