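import Mathlib
import Pool.Agent.V7H18.DC.Core

/-!
First and second moments over the dilates `(k / l) a`, in real form.
-/

set_option autoImplicit false

open Finset

namespace Pool.Agent.V7H18.DC

open Classical in
lemma markov {ι : Type*} (s : Finset ι) (f : ι → ℝ) (hf : ∀ i ∈ s, 0 ≤ f i) (t : ℝ) :
    ((s.filter fun i => t < f i).card : ℝ) * t ≤ ∑ i ∈ s, f i := by
  rw [← nsmul_eq_mul]
  refine (card_nsmul_le_sum _ _ _ fun i hi => (mem_filter.mp hi).2.le).trans ?_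
  exact sum_le_sum_of_subset_of_nonneg (filter_subset _ _) fun i hi _ => hf i hi

lemma card_le_two_mul {Q : Finset ℕ} {P : ℝ} (hP : 1 ≤ P)
    (hQ : ∀ p ∈ Q, p.Prime ∧ P ≤ p ∧ (p : ℝ) ≤ 2 * P) : (Q.card : ℝ) ≤ 2 * P := by
  have hsub : Q ⊆ Icc ⌈P⌉₊ ⌊2 * P⌋₊ := by
    intro p hp
    obtain ⟨-, h1, h2⟩ := hQ p hp
    rw [mem_Icc]
    exact ⟨Nat.ceil_le.mpr h1, Nat.le_floor h2⟩
  have h1 := card_le_card hsub
  rw [Nat.card_Icc] at h1
  have h2 : (⌊2 * P⌋₊ : ℝ) ≤ 2 * P := Nat.floor_le (by linarith)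
  have h3 : P ≤ (⌈P⌉₊ : ℝ) := Nat.le_ceil P
  have h4 : ((⌊2 * P⌋₊ + 1 - ⌈P⌉₊ : ℕ) : ℝ) ≤ 2 * P := by
    rcases le_total ⌈P⌉₊ (⌊2 * P⌋₊ + 1) with h | h
    · rw [Nat.cast_sub h]
      push_cast
      linarith
    · rw [Nat.sub_eq_zero_of_le h]
      push_cast
      linarith
  have h5 : (Q.card : ℝ) ≤ ((⌊2 * P⌋₊ + 1 - ⌈P⌉₊ : ℕ) : ℝ) := by exact_mod_cast h1
  exact h5.trans h4

/-- the pairs `(k, l)` -/
def pairs (K L : ℕ) : Finset (ℕ × ℕ) := (Ico K (2 * K)) ×ˢ (Ico L (2 * L))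

lemma sum_pairs (K L : ℕ) (f : ℕ → ℕ → ℕ) :
    ∑ x ∈ pairs K L, (f x.1 x.2 : ℝ) = ((∑ k ∈ Ico K (2 * K), ∑ l ∈ Ico L (2 * L), f k l : ℕ) : ℝ) := by
  rw [pairs, sum_product]
  push_cast
  rfl

section

variable {Q : Finset ℕ} {K L N τ G : ℕ} {P δ : ℝ} (a : (p : ℕ) → ZMod p)

lemma sumB_le (hP : 0 < P) (hQ : ∀ p ∈ Q, p.Prime ∧ P ≤ p ∧ (p : ℝ) ≤ 2 * P)
    (h2K : 2 * (K : ℝ) ≤ P) (hG : 1 ≤ G)
    (hτ : ∀ m : ℕ, 1 ≤ m → m ≤ 2 * L * N → ((Ico L (2 * L)).filter (· ∣ m)).card ≤ τ) :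
    ∑ x ∈ pairs K L, ((∑ n ∈ bad G N x.1 x.2, mult Q a x.1 x.2 n : ℕ) : ℝ)
      ≤ Q.card * (τ * (8 * K * L * N / (G * P) + 2 * K * (1 + Real.log (2 * K)))) := by
  rw [sum_pairs K L fun k l => ∑ n ∈ bad G N k l, mult Q a k l n]
  have h1 := sum_bad_le (K := K) (G := G) (Q := Q) a hτ
  have h2 : ((∑ k ∈ Ico K (2 * K), ∑ l ∈ Ico L (2 * L), ∑ n ∈ bad G N k l, mult Q a k l n : ℕ) : ℝ)
      ≤ ((∑ p ∈ Q, τ * (Bad K (2 * L * N) G p (a p)).card : ℕ) : ℝ) := by exact_mod_cast h1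
  refine h2.trans ?_
  rw [Nat.cast_sum, ← nsmul_eq_mul]
  refine sum_le_card_nsmul _ _ _ fun p hp => ?_
  obtain ⟨hp1, hp2, -⟩ := hQ p hp
  rw [Nat.cast_mul]
  have hG0 : (0 : ℝ) < G := by exact_mod_cast hG
  have h3 : 2 * K ≤ p := by exact_mod_cast h2K.trans hp2
  have h4 := card_bad_le (M := 2 * L * N) hp1 h3 hG (a p)
  refine mul_le_mul_of_nonneg_left (h4.trans ?_) (Nat.cast_nonneg _)
  have h5 : 4 * (K : ℝ) * ((2 * L * N : ℕ) : ℝ) / (G * p) ≤ 8 * K * L * N / (G * P) := by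
    push_cast
    have e : 4 * (K : ℝ) * (2 * L * N) = 8 * K * L * N := by ring
    rw [e]
    gcongr
  linarith

lemma sumE_le (hP : 1 ≤ P) (hQ : ∀ p ∈ Q, p.Prime ∧ P ≤ p ∧ (p : ℝ) ≤ 2 * P)
    (hK : 1 ≤ K) (h2L : 2 * (L : ℝ) ≤ P) (hN : 4 * P ≤ N)
    (hτ : ∀ m : ℕ, 1 ≤ m → m ≤ 2 * L * N → ((Ico L (2 * L)).filter (· ∣ m)).card ≤ τ) :
    ∑ x ∈ pairs K L, ((∑ n ∈ good G N x.1 x.2, mult Q a x.1 x.2 n ^ 2 : ℕ) : ℝ)
      ≤ Q.card * (K * L * (2 * N / P)) + Q.card ^ 2 * (τ * ((8 * K * L * N / P ^ 2 + 1) * G)) := by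
  classical
  have hP0 : 0 < P := by linarith
  rw [sum_pairs K L fun k l => ∑ n ∈ good G N k l, mult Q a k l n ^ 2, sum_good_eq]
  have h1 : ∀ p ∈ Q, ∀ q ∈ Q, ((Two K L N G a p q).card : ℝ)
      ≤ (if p = q then K * L * (2 * N / P) else 0) + τ * ((8 * K * L * N / P ^ 2 + 1) * G) := by
    intro p hp q hq
    obtain ⟨hp1, hp2, -⟩ := hQ p hp
    obtain ⟨hq1, hq2, -⟩ := hQ q hq
    have hp0 : (0 : ℝ) < p := by linarith
    have hq0 : (0 : ℝ) < q := by linarith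
    by_cases h : p = q
    · subst h
      rw [if_pos rfl]
      have h2L' : 2 * L ≤ p := by exact_mod_cast h2L.trans hp2
      have h2 : ((Two K L N G a p p).card : ℝ) ≤ K * L * ((N / p : ℕ) + 1) := by
        exact_mod_cast card_two_self_le (N := N) (G := G) (K := K) a hp1 h2L'
      have h3 : ((N / p : ℕ) : ℝ) ≤ N / P := Nat.cast_div_le.trans (by gcongr)
      have h4 : (1 : ℝ) ≤ N / P := by
        rw [le_div_iff₀ hP0]
        linarith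
      have h5 : (K * L : ℝ) * ((N / p : ℕ) + 1) ≤ K * L * (2 * N / P) := by
        have : 2 * (N : ℝ) / P = N / P + N / P := by ring
        rw [this]
        gcongr
      have h6 : (0 : ℝ) ≤ τ * ((8 * K * L * N / P ^ 2 + 1) * G) := by positivity
      linarith
    · rw [if_neg h, zero_add]
      have h2 : ((Two K L N G a p q).card : ℝ)
          ≤ ((τ * ((4 * K * (2 * L * N) / (p * q) + 1) * G) : ℕ) : ℝ) := by
        exact_mod_cast card_two_le (G := G) a hK hτ hp1 hq1 h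
      refine h2.trans ?_
      push_cast
      have h3 : ((4 * K * (2 * L * N) / (p * q) : ℕ) : ℝ) ≤ 8 * K * L * N / P ^ 2 := by
        refine Nat.cast_div_le.trans ?_
        push_cast
        have e : 4 * (K : ℝ) * (2 * L * N) = 8 * K * L * N := by ring
        have e2 : P ^ 2 ≤ (p : ℝ) * q := by
          rw [sq]
          gcongr
        rw [e]
        gcongr
      gcongr
  rw [Nat.cast_sum]
  have h2 : ∑ p ∈ Q, ((∑ q ∈ Q, (Two K L N G a p q).card : ℕ) : ℝ)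
      ≤ ∑ p ∈ Q, ∑ q ∈ Q, ((if p = q then K * L * (2 * N / P) else 0)
        + τ * ((8 * K * L * N / P ^ 2 + 1) * G)) := by
    refine sum_le_sum fun p hp => ?_
    rw [Nat.cast_sum]
    exact sum_le_sum fun q hq => h1 p hp q hq
  refine h2.trans (le_of_eq ?_)
  simp only [sum_add_distrib, sum_const, nsmul_eq_mul]
  congr 1
  · have : ∀ p ∈ Q, (∑ q ∈ Q, if p = q then (K : ℝ) * L * (2 * N / P) else 0)
        = K * L * (2 * N / P) := by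
      intro p hp
      rw [sum_ite_eq, if_pos hp]
    rw [sum_congr rfl this, sum_const, nsmul_eq_mul]
  · ring

end

end Pool.Agent.V7H18.DC
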