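import Mathlib
import Pool.Agent.V7H18.DC.Finite

/-!
Almost all affine images cover many integers: finite form with explicit constants.
-/

set_option autoImplicit false

open Finset

namespace Pool.Agent.V7H18.DC

open Classical in
/-- the integers of `(b, b + N]` covered by the dilated classes of `Q` -/
noncomputable def covW (Q : Finset ℕ) (a : (p : ℕ) → ZMod p) (N k l b : ℕ) : Finset ℕ :=
  (Ioc b (b + N)).filter fun n => ∃ p ∈ Q, Hit a k l n p

/-- the good points of a window -/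
def goodW (G N k l b : ℕ) : Finset ℕ := (Ioc b (b + N)).filter fun n => Nat.gcd (l * n) k ≤ G

/-- the bad points of a window -/
def badW (G N k l b : ℕ) : Finset ℕ := (Ioc b (b + N)).filter fun n => ¬ Nat.gcd (l * n) k ≤ G

lemma sum_goodW_add_badW (G N k l b : ℕ) (f : ℕ → ℕ) :
    ∑ n ∈ goodW G N k l b, f n + ∑ n ∈ badW G N k l b, f n = ∑ n ∈ Ioc b (b + N), f n :=
  sum_filter_add_sum_filter_not _ _ _

lemma window_sum (s : Finset ℕ) (g : ℕ → ℕ) (B N : ℕ) :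
    ∑ b ∈ range B, ∑ n ∈ s.filter (fun n => n ∈ Ioc b (b + N)), g n ≤ min N B * ∑ n ∈ s, g n := by
  simp only [sum_filter]
  rw [sum_comm, mul_sum]
  refine sum_le_sum fun n _ => ?_
  rw [← sum_filter, sum_const, smul_eq_mul]
  refine Nat.mul_le_mul_right _ (le_min ?_ ?_)
  · have : ((range B).filter fun b => n ∈ Ioc b (b + N)) ⊆ Ico (n - N) n := by
      intro b hb
      rw [mem_filter, mem_Ioc] at hb
      rw [mem_Ico]
      omega
    refine (card_le_card this).trans ?_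
    rw [Nat.card_Ico]
    omega
  · exact (card_filter_le _ _).trans (by rw [card_range])

lemma goodW_eq {G N k l b B : ℕ} (hb : b < B) :
    goodW G N k l b = (good G (B + N) k l).filter (fun n => n ∈ Ioc b (b + N)) := by
  ext n
  rw [goodW, good, mem_filter, mem_filter, mem_filter, mem_Icc, mem_Ioc]
  constructor
  · rintro ⟨h1, h2⟩
    exact ⟨⟨⟨by omega, by omega⟩, h2⟩, h1⟩
  · rintro ⟨⟨-, h2⟩, h1⟩
    exact ⟨h1, h2⟩

lemma badW_eq {G N k l b B : ℕ} (hb : b < B) :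
    badW G N k l b = (bad G (B + N) k l).filter (fun n => n ∈ Ioc b (b + N)) := by
  ext n
  rw [badW, bad, mem_filter, mem_filter, mem_filter, mem_Icc, mem_Ioc]
  constructor
  · rintro ⟨h1, h2⟩
    exact ⟨⟨⟨by omega, by omega⟩, h2⟩, h1⟩
  · rintro ⟨⟨-, h2⟩, h1⟩
    exact ⟨h1, h2⟩

/-- Cauchy-Schwarz -/
lemma csW (Q : Finset ℕ) (a : (p : ℕ) → ZMod p) (G N k l b : ℕ) :
    (∑ n ∈ goodW G N k l b, mult Q a k l n) ^ 2
      ≤ (covW Q a N k l b).card * ∑ n ∈ goodW G N k l b, mult Q a k l n ^ 2 := by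
  classical
  set g := (goodW G N k l b).filter fun n => n ∈ covW Q a N k l b with hg
  have h0 : ∀ n ∈ goodW G N k l b, n ∉ g → mult Q a k l n = 0 := by
    intro n hn hng
    rw [mult, card_eq_zero, filter_eq_empty_iff]
    intro p hp hh
    apply hng
    rw [hg, mem_filter]
    refine ⟨hn, ?_⟩
    rw [covW, mem_filter]
    exact ⟨(mem_filter.mp hn).1, p, hp, hh⟩
  have h1 : ∑ n ∈ g, mult Q a k l n = ∑ n ∈ goodW G N k l b, mult Q a k l n :=
    sum_subset (filter_subset _ _) h0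
  rw [← h1]
  refine sq_sum_le_card_mul_sum_sq.trans ?_
  refine Nat.mul_le_mul (card_le_card fun n hn => (mem_filter.mp hn).2) ?_
  exact sum_le_sum_of_subset (filter_subset _ _)

open Classical in
lemma le_card_hitW {a : (p : ℕ) → ZMod p} {k l p : ℕ} (N b : ℕ) (hp : p.Prime) (hl : 0 < l)
    (hlp : l < p) : N / p ≤ ((Ioc b (b + N)).filter fun n => Hit a k l n p).card := by
  refine (le_card_class p N hp.pos ((k : ZMod p) * (l : ZMod p)⁻¹ * a p - b)).trans ?_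
  refine card_le_card_of_injOn (fun n => n + b) ?_ ?_
  · intro n hn
    rw [mem_coe, mem_filter, mem_Icc] at hn
    rw [mem_coe, mem_filter, mem_Ioc]
    refine ⟨⟨?_, ?_⟩, ?_⟩
    · show b < n + b
      omega
    · show n + b ≤ b + N
      omega
    · show Hit a k l (n + b) p
      rw [hit_iff hp hl hlp, Nat.cast_add, hn.2]
      ring
  · intro n _ m _ h
    simp only at h
    omega

/-- first moment, from below -/
lemma first_momentW {Q : Finset ℕ} (a : (p : ℕ) → ZMod p) {N k l : ℕ} (b : ℕ) {P : ℝ}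
    (hP : 0 < P) (hQ : ∀ p ∈ Q, p.Prime ∧ P ≤ p ∧ (p : ℝ) ≤ 2 * P) (hl : 0 < l)
    (hl2 : (l : ℝ) < P) (hN : 4 * P ≤ N) :
    (Q.card : ℝ) * (N / (4 * P)) ≤ ∑ n ∈ Ioc b (b + N), (mult Q a k l n : ℝ) := by
  classical
  have h1 : (∑ n ∈ Ioc b (b + N), mult Q a k l n)
      = ∑ p ∈ Q, ((Ioc b (b + N)).filter fun n => Hit a k l n p).card := by
    simp only [mult, card_filter]
    exact sum_comm
  have h2 : ∑ n ∈ Ioc b (b + N), (mult Q a k l n : ℝ)
      = ∑ p ∈ Q, (((Ioc b (b + N)).filter fun n => Hit a k l n p).card : ℝ) := by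
    rw [← Nat.cast_sum, h1, Nat.cast_sum]
  rw [h2, ← nsmul_eq_mul]
  refine card_nsmul_le_sum _ _ _ fun p hp => ?_
  obtain ⟨hp1, hp2, hp3⟩ := hQ p hp
  have hlp : l < p := by exact_mod_cast hl2.trans_le hp2
  have h3 : ((N / p : ℕ) : ℝ) ≤ (((Ioc b (b + N)).filter fun n => Hit a k l n p).card : ℝ) := by
    exact_mod_cast le_card_hitW N b hp1 hl hlp
  refine le_trans ?_ h3
  have h4 : (N : ℝ) / p < ((N / p : ℕ) : ℝ) + 1 := by
    rw [div_lt_iff₀ (by exact_mod_cast hp1.pos)]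
    have := Nat.lt_mul_div_succ N hp1.pos
    have h5 : (N : ℝ) < p * ((N / p : ℕ) + 1) := by exact_mod_cast this
    linarith
  have h5 : (N : ℝ) / (2 * P) ≤ N / p := by
    have hp0 : (0 : ℝ) < p := by exact_mod_cast hp1.pos
    gcongr
  have h6 : (1 : ℝ) ≤ N / (4 * P) := by
    rw [le_div_iff₀ (by positivity)]
    linarith
  have h7 : (N : ℝ) / (2 * P) = 2 * (N / (4 * P)) := by
    field_simp
    ring
  linarith

/-- the triples `(k, l, b)` -/
def trip (K L B : ℕ) : Finset (ℕ × ℕ × ℕ) := (Ico K (2 * K)) ×ˢ ((Ico L (2 * L)) ×ˢ range B)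

lemma sum_trip (K L B : ℕ) (f : ℕ → ℕ → ℕ → ℕ) :
    ∑ x ∈ trip K L B, (f x.1 x.2.1 x.2.2 : ℝ)
      = ∑ x ∈ pairs K L, ((∑ b ∈ range B, f x.1 x.2 b : ℕ) : ℝ) := by
  rw [trip, pairs, sum_product, sum_product]
  refine sum_congr rfl fun k _ => ?_
  rw [sum_product]
  refine sum_congr rfl fun l _ => ?_
  push_cast
  rfl

/-- the final inequality between the parameters -/
lemma algebraW {q N P X τ G δ m : ℝ} (hq : 0 < q) (hN : 0 < N) (hP : 0 < P) (hX : 0 < X)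
    (hτ : 1 ≤ τ) (hG : 1 ≤ G) (hδ : 0 < δ) (hG2 : G ≤ 513 * (τ / δ)) (hq2 : q ≤ 2 * P)
    (hm0 : 0 < m) (hm1 : m ≤ q * N / P) (hm2 : m ≤ X * N ^ 2 / P ^ 2) :
    δ ^ 2 / (3000000 * τ ^ 2) * m
      * (2 / δ * (q * (4 * N / P) + q ^ 2 * (τ * ((16 * N / P ^ 2 + 1 / X) * G))))
      ≤ (q * (N / (4 * P)) / 2) ^ 2 := by
  have hm3 : m ≤ 2 * N := by
    refine hm1.trans ?_
    rw [div_le_iff₀ hP]
    nlinarith
  set R : ℝ := q ^ 2 * N ^ 2 / P ^ 2 with hR
  have hR0 : 0 < R := by positivity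
  have t1 : m * (q * (4 * N / P)) ≤ 4 * R := by
    calc m * (q * (4 * N / P)) ≤ q * N / P * (q * (4 * N / P)) := by gcongr
      _ = 4 * R := by
        rw [hR]
        field_simp
  have t2 : m * (16 * N / P ^ 2 + 1 / X) ≤ 33 * (N ^ 2 / P ^ 2) := by
    have u1 : m * (16 * N / P ^ 2) ≤ 32 * (N ^ 2 / P ^ 2) := by
      calc m * (16 * N / P ^ 2) ≤ 2 * N * (16 * N / P ^ 2) := by gcongr
        _ = _ := by
          field_simp
          ring
    have u2 : m * (1 / X) ≤ N ^ 2 / P ^ 2 := by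
      calc m * (1 / X) ≤ X * N ^ 2 / P ^ 2 * (1 / X) := by gcongr
        _ = _ := by
          field_simp
    rw [mul_add]
    linarith
  have t3 : m * (q ^ 2 * (τ * ((16 * N / P ^ 2 + 1 / X) * G))) ≤ 33 * (τ * G) * R := by
    calc m * (q ^ 2 * (τ * ((16 * N / P ^ 2 + 1 / X) * G)))
        = q ^ 2 * (τ * G) * (m * (16 * N / P ^ 2 + 1 / X)) := by ring
      _ ≤ q ^ 2 * (τ * G) * (33 * (N ^ 2 / P ^ 2)) := by gcongr
      _ = _ := by
        rw [hR]
        field_simp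
  have t4 : (1 : ℝ) ≤ τ * G := by nlinarith
  have t5 : m * (q * (4 * N / P) + q ^ 2 * (τ * ((16 * N / P ^ 2 + 1 / X) * G)))
      ≤ 37 * (τ * G) * R := by
    rw [mul_add]
    have : 4 * R ≤ 4 * (τ * G) * R := by
      have := mul_le_mul_of_nonneg_right t4 hR0.le
      linarith
    linarith
  have t6 : (τ : ℝ) * G ≤ 513 * (τ ^ 2 / δ) := by
    calc (τ : ℝ) * G ≤ τ * (513 * (τ / δ)) := by gcongr
      _ = _ := by ring
  have t7 : δ ^ 2 / (3000000 * (τ : ℝ) ^ 2) * m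
      * (2 / δ * (q * (4 * N / P) + q ^ 2 * (τ * ((16 * N / P ^ 2 + 1 / X) * G))))
      = 2 * δ / (3000000 * (τ : ℝ) ^ 2)
        * (m * (q * (4 * N / P) + q ^ 2 * (τ * ((16 * N / P ^ 2 + 1 / X) * G)))) := by
    field_simp
  rw [t7]
  have t8 : m * (q * (4 * N / P) + q ^ 2 * (τ * ((16 * N / P ^ 2 + 1 / X) * G)))
      ≤ 37 * (513 * (τ ^ 2 / δ)) * R := by
    refine t5.trans ?_
    gcongr
  have t9 : 2 * δ / (3000000 * (τ : ℝ) ^ 2) * (37 * (513 * (τ ^ 2 / δ)) * R)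
      = 37962 / 3000000 * R := by
    field_simp
    ring
  have t10 : (q * (N / (4 * P)) / 2) ^ 2 = R / 64 := by
    rw [hR]
    field_simp
    ring
  rw [t10]
  calc 2 * δ / (3000000 * (τ : ℝ) ^ 2)
        * (m * (q * (4 * N / P) + q ^ 2 * (τ * ((16 * N / P ^ 2 + 1 / X) * G))))
      ≤ 2 * δ / (3000000 * (τ : ℝ) ^ 2) * (37 * (513 * (τ ^ 2 / δ)) * R) := by gcongr
    _ = 37962 / 3000000 * R := t9
    _ ≤ R / 64 := by linarith

section

variable {Q : Finset ℕ} {K L B N τ G : ℕ} {P δ : ℝ} (a : (p : ℕ) → ZMod p)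

lemma sumBW_le (hP : 0 < P) (hQ : ∀ p ∈ Q, p.Prime ∧ P ≤ p ∧ (p : ℝ) ≤ 2 * P)
    (h2K : 2 * (K : ℝ) ≤ P) (hG : 1 ≤ G)
    (hτ : ∀ m : ℕ, 1 ≤ m → m ≤ 2 * L * (B + N) → ((Ico L (2 * L)).filter (· ∣ m)).card ≤ τ) :
    ∑ x ∈ trip K L B, ((∑ n ∈ badW G N x.1 x.2.1 x.2.2, mult Q a x.1 x.2.1 n : ℕ) : ℝ)
      ≤ (min N B : ℕ) * (Q.card * (τ * (8 * K * L * ((B + N : ℕ) : ℝ) / (G * P)
        + 2 * K * (1 + Real.log (2 * K))))) := by
  rw [sum_trip K L B fun k l b => ∑ n ∈ badW G N k l b, mult Q a k l n]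
  have h1 := sumB_le (K := K) (G := G) (N := B + N) a hP hQ h2K hG hτ
  refine le_trans ?_ (mul_le_mul_of_nonneg_left h1 (Nat.cast_nonneg _))
  rw [mul_sum]
  refine sum_le_sum fun x _ => ?_
  have h2 : ∑ b ∈ range B, ∑ n ∈ badW G N x.1 x.2 b, mult Q a x.1 x.2 n
      ≤ min N B * ∑ n ∈ bad G (B + N) x.1 x.2, mult Q a x.1 x.2 n := by
    refine le_trans (le_of_eq ?_) (window_sum _ _ B N)
    refine sum_congr rfl fun b hb => ?_
    rw [badW_eq (mem_range.mp hb)]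
  exact_mod_cast h2

lemma sumEW_le (hP : 1 ≤ P) (hQ : ∀ p ∈ Q, p.Prime ∧ P ≤ p ∧ (p : ℝ) ≤ 2 * P)
    (hK : 1 ≤ K) (h2L : 2 * (L : ℝ) ≤ P) (hN : 4 * P ≤ N)
    (hτ : ∀ m : ℕ, 1 ≤ m → m ≤ 2 * L * (B + N) → ((Ico L (2 * L)).filter (· ∣ m)).card ≤ τ) :
    ∑ x ∈ trip K L B, ((∑ n ∈ goodW G N x.1 x.2.1 x.2.2, mult Q a x.1 x.2.1 n ^ 2 : ℕ) : ℝ)
      ≤ (min N B : ℕ) * (Q.card * (K * L * (2 * ((B + N : ℕ) : ℝ) / P))
        + Q.card ^ 2 * (τ * ((8 * K * L * ((B + N : ℕ) : ℝ) / P ^ 2 + 1) * G))) := by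
  rw [sum_trip K L B fun k l b => ∑ n ∈ goodW G N k l b, mult Q a k l n ^ 2]
  have hN' : 4 * P ≤ ((B + N : ℕ) : ℝ) := by
    push_cast
    have : (0 : ℝ) ≤ B := Nat.cast_nonneg _
    linarith
  have h1 := sumE_le (K := K) (G := G) (N := B + N) a hP hQ hK h2L hN' hτ
  refine le_trans ?_ (mul_le_mul_of_nonneg_left h1 (Nat.cast_nonneg _))
  rw [mul_sum]
  refine sum_le_sum fun x _ => ?_
  have h2 : ∑ b ∈ range B, ∑ n ∈ goodW G N x.1 x.2 b, mult Q a x.1 x.2 n ^ 2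
      ≤ min N B * ∑ n ∈ good G (B + N) x.1 x.2, mult Q a x.1 x.2 n ^ 2 := by
    refine le_trans (le_of_eq ?_) (window_sum _ _ B N)
    refine sum_congr rfl fun b hb => ?_
    rw [goodW_eq (mem_range.mp hb)]
  exact_mod_cast h2

open Classical in
/-- **Almost all affine images cover many integers.** -/
theorem finite_windows (hP : 1 ≤ P) (hQ : ∀ p ∈ Q, p.Prime ∧ P ≤ p ∧ (p : ℝ) ≤ 2 * P)
    (hK : 1 ≤ K) (hL : 1 ≤ L) (hB : 1 ≤ B) (h2K : 2 * (K : ℝ) ≤ P) (h2L : 2 * (L : ℝ) ≤ P)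
    (hN : 4 * P ≤ N) (hδ : 0 < δ) (hδ1 : δ ≤ 1) (hτ1 : 1 ≤ τ)
    (hτ : ∀ m : ℕ, 1 ≤ m → m ≤ 2 * L * (B + N) → ((Ico L (2 * L)).filter (· ∣ m)).card ≤ τ)
    (hlog : 64 * P * τ * (1 + Real.log (2 * K)) ≤ δ * N) :
    (((trip K L B).filter fun x => ((covW Q a N x.1 x.2.1 x.2.2).card : ℝ)
        < δ ^ 2 / (3000000 * τ ^ 2)
          * min (Q.card * N / P) (K * L * max 1 ((B : ℝ) / N) * N ^ 2 / P ^ 2)).card : ℝ)
      ≤ δ * (K * L * B) := by
  have hP0 : 0 < P := by linarith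
  have hK0 : (0 : ℝ) < K := by exact_mod_cast hK
  have hL0 : (0 : ℝ) < L := by exact_mod_cast hL
  have hB0 : (0 : ℝ) < B := by exact_mod_cast hB
  have hL1 : (1 : ℝ) ≤ L := by exact_mod_cast hL
  have hτ0 : (1 : ℝ) ≤ τ := by exact_mod_cast hτ1
  have hN0 : (0 : ℝ) < N := by linarith
  set J : ℝ := max 1 ((B : ℝ) / N) with hJ
  have hJ1 : 1 ≤ J := le_max_left _ _
  have hJ0 : 0 < J := by linarith
  rcases Nat.eq_zero_or_pos Q.card with hq0 | hq0
  · have : (trip K L B).filter (fun x => ((covW Q a N x.1 x.2.1 x.2.2).card : ℝ)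
        < δ ^ 2 / (3000000 * τ ^ 2) * min (Q.card * N / P) (K * L * J * N ^ 2 / P ^ 2)) = ∅ := by
      apply filter_eq_empty_iff.mpr
      intro x _
      rw [hq0, not_lt]
      have : min (((0 : ℕ) : ℝ) * N / P) ((K : ℝ) * L * J * N ^ 2 / P ^ 2) ≤ 0 :=
        (min_le_left _ _).trans (by simp)
      have h0 : δ ^ 2 / (3000000 * (τ : ℝ) ^ 2)
          * min (((0 : ℕ) : ℝ) * N / P) ((K : ℝ) * L * J * N ^ 2 / P ^ 2) ≤ 0 :=
        mul_nonpos_of_nonneg_of_nonpos (by positivity) this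
      exact h0.trans (Nat.cast_nonneg _)
    rw [this]
    simp only [card_empty, Nat.cast_zero]
    positivity
  -- the multiplicity of the windows
  have hw : ((min N B : ℕ) : ℝ) ≤ B / J := by
    rw [le_div_iff₀ hJ0, Nat.cast_min, hJ]
    rcases le_total (B : ℝ) N with h | h
    · rw [min_eq_right h, max_eq_left (by rw [div_le_one hN0]; exact h), mul_one]
    · rw [min_eq_left h, max_eq_right (by rw [one_le_div hN0]; exact h)]
      rw [mul_div_cancel₀ _ hN0.ne']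
  have hM : ((B + N : ℕ) : ℝ) ≤ 2 * N * J := by
    push_cast
    have h1 : (B : ℝ) ≤ N * J := by
      have : (B : ℝ) / N ≤ J := le_max_right _ _
      rw [div_le_iff₀ hN0] at this
      linarith
    have h2 : (N : ℝ) ≤ N * J := le_mul_of_one_le_right hN0.le hJ1
    linarith
  set q : ℝ := (Q.card : ℝ) with hq
  have hqpos : 0 < q := by
    rw [hq]
    exact_mod_cast hq0
  have hq2 : q ≤ 2 * P := card_le_two_mul hP hQ
  set G : ℕ := ⌈512 * τ / δ⌉₊ with hG
  have hG1 : 512 * τ / δ ≤ (G : ℝ) := Nat.le_ceil _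
  have hτδ : 1 ≤ (τ : ℝ) / δ := by
    rw [le_div_iff₀ hδ]
    linarith
  have hG2 : (G : ℝ) ≤ 513 * (τ / δ) := by
    have h1 : (G : ℝ) < 512 * τ / δ + 1 := Nat.ceil_lt_add_one (by positivity)
    have h2 : 512 * (τ : ℝ) / δ = 512 * (τ / δ) := by ring
    rw [h2] at h1
    linarith
  have hG3 : (1 : ℝ) ≤ G := by
    have h2 : 512 * (τ : ℝ) / δ = 512 * (τ / δ) := by ring
    rw [h2] at hG1
    linarith
  have hG4 : 1 ≤ G := by exact_mod_cast hG3
  have hG0 : (0 : ℝ) < G := by linarith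
  -- the two exceptional sets
  set Bf : ℕ × ℕ × ℕ → ℝ := fun x =>
    ((∑ n ∈ badW G N x.1 x.2.1 x.2.2, mult Q a x.1 x.2.1 n : ℕ) : ℝ) with hBf
  set E : ℕ × ℕ × ℕ → ℝ := fun x =>
    ((∑ n ∈ goodW G N x.1 x.2.1 x.2.2, mult Q a x.1 x.2.1 n ^ 2 : ℕ) : ℝ) with hE
  set A : ℝ := q * (N / (4 * P)) with hA
  have hA0 : 0 < A := by positivity
  set e0 : ℝ := 2 / δ * (q * (4 * N / P)
    + q ^ 2 * (τ * ((16 * N / P ^ 2 + 1 / (K * L * J)) * G))) with he0
  have he00 : 0 < e0 := by positivity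
  have hlog0 : (0 : ℝ) ≤ 1 + Real.log (2 * K) := by
    have : 0 ≤ Real.log (2 * (K : ℝ)) := Real.log_nonneg (by
      have : (1 : ℝ) ≤ K := by exact_mod_cast hK
      linarith)
    linarith
  have hX1 : ((((trip K L B).filter fun x => A / 2 < Bf x)).card : ℝ) ≤ δ / 2 * (K * L * B) := by
    have h1 := markov (trip K L B) Bf (fun x _ => Nat.cast_nonneg _) (A / 2)
    have h2 := sumBW_le (K := K) (G := G) (N := N) (B := B) a hP0 hQ h2K hG4 hτ
    have h3 := h1.trans h2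
    rw [← hq] at h3
    have h4 : ((min N B : ℕ) : ℝ) * (q * (τ * (8 * K * L * ((B + N : ℕ) : ℝ) / (G * P)
        + 2 * K * (1 + Real.log (2 * K))))) ≤ δ / 2 * (K * L * B) * (A / 2) := by
      have f1 : ((min N B : ℕ) : ℝ) * (q * (τ * (8 * K * L * ((B + N : ℕ) : ℝ) / (G * P)
          + 2 * K * (1 + Real.log (2 * K))))) ≤ B / J * (q * (τ * (8 * K * L * (2 * N * J) / (G * P)
          + 2 * K * (1 + Real.log (2 * K))))) := by gcongr
      refine f1.trans ?_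
      have e1 : (τ : ℝ) * (8 * K * L * (2 * N * J) / (G * P)) ≤ δ / 32 * (K * L * J) * (N / P) := by
        have : (τ : ℝ) * (8 * K * L * (2 * N * J) / (G * P))
            = τ / G * (16 * (K * L * J) * (N / P)) := by
          field_simp
          ring
        rw [this]
        have e2 : (τ : ℝ) / G ≤ δ / 512 := by
          rw [div_le_iff₀ hG0]
          rw [div_le_iff₀ hδ] at hG1
          linarith
        calc τ / G * (16 * (K * L * J) * (N / P)) ≤ δ / 512 * (16 * (K * L * J) * (N / P)) := by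
              gcongr
          _ = _ := by ring
      have e3 : (τ : ℝ) * (2 * K * (1 + Real.log (2 * K))) ≤ δ / 32 * (K * L * J) * (N / P) := by
        have e4 : (τ : ℝ) * (2 * K * (1 + Real.log (2 * K)))
            = K * (64 * P * τ * (1 + Real.log (2 * K))) / (32 * P) := by
          field_simp
          ring
        rw [e4, div_le_iff₀ (by positivity)]
        have e5 : δ / 32 * (K * L * J) * (N / P) * (32 * P) = K * (δ * N) * (L * J) := by
          field_simp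
        rw [e5]
        have e6 : (0 : ℝ) ≤ K * (δ * N) := by positivity
        have hLJ : 1 ≤ (L : ℝ) * J := by nlinarith
        calc (K : ℝ) * (64 * P * τ * (1 + Real.log (2 * K))) ≤ K * (δ * N) := by gcongr
          _ ≤ K * (δ * N) * (L * J) := le_mul_of_one_le_right e6 hLJ
      have e8 : (τ : ℝ) * (8 * K * L * (2 * N * J) / (G * P) + 2 * K * (1 + Real.log (2 * K)))
          ≤ 2 * (δ / 32 * (K * L * J) * (N / P)) := by
        rw [mul_add]
        linarith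
      calc B / J * (q * (τ * (8 * K * L * (2 * N * J) / (G * P)
          + 2 * K * (1 + Real.log (2 * K)))))
          ≤ B / J * (q * (2 * (δ / 32 * (K * L * J) * (N / P)))) := by gcongr
        _ = δ / 2 * (K * L * B) * (A / 2) := by
          rw [hA]
          field_simp
          ring
    exact le_of_mul_le_mul_right (h3.trans h4) (by positivity)
  have hX2 : ((((trip K L B).filter fun x => e0 < E x)).card : ℝ) ≤ δ / 2 * (K * L * B) := by
    have h1 := markov (trip K L B) E (fun x _ => Nat.cast_nonneg _) e0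
    have h2 := sumEW_le (K := K) (G := G) (N := N) (B := B) a hP hQ hK h2L hN hτ
    have h3 := h1.trans h2
    rw [← hq] at h3
    have h4 : ((min N B : ℕ) : ℝ) * (q * (K * L * (2 * ((B + N : ℕ) : ℝ) / P))
        + q ^ 2 * (τ * ((8 * K * L * ((B + N : ℕ) : ℝ) / P ^ 2 + 1) * G)))
        ≤ δ / 2 * (K * L * B) * e0 := by
      calc ((min N B : ℕ) : ℝ) * (q * (K * L * (2 * ((B + N : ℕ) : ℝ) / P))
        + q ^ 2 * (τ * ((8 * K * L * ((B + N : ℕ) : ℝ) / P ^ 2 + 1) * G)))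
          ≤ B / J * (q * (K * L * (2 * (2 * N * J) / P))
        + q ^ 2 * (τ * ((8 * K * L * (2 * N * J) / P ^ 2 + 1) * G))) := by gcongr
        _ = δ / 2 * (K * L * B) * e0 := by
          rw [he0]
          field_simp
          ring
    exact le_of_mul_le_mul_right (h3.trans h4) he00
  -- the exceptional triples
  have hsub : ((trip K L B).filter fun x => ((covW Q a N x.1 x.2.1 x.2.2).card : ℝ)
      < δ ^ 2 / (3000000 * τ ^ 2) * min (q * N / P) (K * L * J * N ^ 2 / P ^ 2))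
      ⊆ ((trip K L B).filter fun x => A / 2 < Bf x) ∪ ((trip K L B).filter fun x => e0 < E x) := by
    intro x hx
    rw [mem_filter] at hx
    obtain ⟨hxp, hxc⟩ := hx
    rw [mem_union, mem_filter, mem_filter]
    by_contra hcon
    rw [not_or] at hcon
    have hB1 : Bf x ≤ A / 2 := by
      by_contra h
      exact hcon.1 ⟨hxp, not_le.mp h⟩
    have hE1 : E x ≤ e0 := by
      by_contra h
      exact hcon.2 ⟨hxp, not_le.mp h⟩
    rw [trip, mem_product, mem_product, mem_Ico, mem_Ico] at hxp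
    have hx2 : 0 < x.2.1 := by omega
    have hx2P : (x.2.1 : ℝ) < P := by
      have : (x.2.1 : ℝ) < 2 * L := by exact_mod_cast hxp.2.1.2
      linarith
    have hfm := first_momentW (k := x.1) a x.2.2 hP0 hQ hx2 hx2P hN
    rw [← hq] at hfm
    have hsplit : (∑ n ∈ Ioc x.2.2 (x.2.2 + N), (mult Q a x.1 x.2.1 n : ℝ))
        = ((∑ n ∈ goodW G N x.1 x.2.1 x.2.2, mult Q a x.1 x.2.1 n : ℕ) : ℝ) + Bf x := by
      rw [hBf, ← Nat.cast_sum, ← Nat.cast_add, sum_goodW_add_badW]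
    rw [hsplit] at hfm
    have hF : A / 2 ≤ ((∑ n ∈ goodW G N x.1 x.2.1 x.2.2, mult Q a x.1 x.2.1 n : ℕ) : ℝ) := by
      rw [hA] at hB1 ⊢
      linarith
    have hcs : ((∑ n ∈ goodW G N x.1 x.2.1 x.2.2, mult Q a x.1 x.2.1 n : ℕ) : ℝ) ^ 2
        ≤ (covW Q a N x.1 x.2.1 x.2.2).card * E x := by
      show ((∑ n ∈ goodW G N x.1 x.2.1 x.2.2, mult Q a x.1 x.2.1 n : ℕ) : ℝ) ^ 2
        ≤ (covW Q a N x.1 x.2.1 x.2.2).card
          * ((∑ n ∈ goodW G N x.1 x.2.1 x.2.2, mult Q a x.1 x.2.1 n ^ 2 : ℕ) : ℝ)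
      exact_mod_cast csW Q a G N x.1 x.2.1 x.2.2
    have h5 : (A / 2) ^ 2 ≤ (covW Q a N x.1 x.2.1 x.2.2).card * e0 := by
      refine le_trans (pow_le_pow_left₀ (by positivity) hF 2) (hcs.trans ?_)
      gcongr
    set m : ℝ := min (q * N / P) (K * L * J * N ^ 2 / P ^ 2) with hm
    have hm1 : m ≤ q * N / P := min_le_left _ _
    have hm2 : m ≤ K * L * J * N ^ 2 / P ^ 2 := min_le_right _ _
    have hm0 : 0 < m := lt_min (by positivity) (by positivity)
    have h6 : δ ^ 2 / (3000000 * (τ : ℝ) ^ 2) * m * e0 ≤ (A / 2) ^ 2 :=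
      algebraW hqpos hN0 hP0 (by positivity) hτ0 hG3 hδ hG2 hq2 hm0 hm1 hm2
    have h7 : δ ^ 2 / (3000000 * (τ : ℝ) ^ 2) * m * e0
        ≤ (covW Q a N x.1 x.2.1 x.2.2).card * e0 := h6.trans h5
    have h8 := le_of_mul_le_mul_right h7 he00
    linarith
  have hfin := card_le_card hsub
  have hfin2 : (((trip K L B).filter fun x => ((covW Q a N x.1 x.2.1 x.2.2).card : ℝ)
      < δ ^ 2 / (3000000 * τ ^ 2) * min (q * N / P) (K * L * J * N ^ 2 / P ^ 2)).card : ℝ)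
      ≤ ((((trip K L B).filter fun x => A / 2 < Bf x)).card : ℝ)
        + ((((trip K L B).filter fun x => e0 < E x)).card : ℝ) := by
    exact_mod_cast hfin.trans (card_union_le _ _)
  linarith

end

end Pool.Agent.V7H18.DC
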