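import Pool.Agent.R416.CV.Asym
import Pool.Agent.H353R2.Z2
import Pool.Agent.V7H18.DC.Windows

/-!
Almost all affine images of a choice cover many integers: asymptotic form.
-/

set_option autoImplicit false

open Finset Filter Topology

namespace Pool.Agent.V7H18.DC

open Pool.Agent.H170R2.PC

/-- The number of the integers of `[1, N]` which lie in the class `b p` modulo `p` for at least
one `p` in `Q`. -/
noncomputable def coveredBy (Q : Finset ℕ) (N : ℕ) (b : (p : ℕ) → ZMod p) : ℕ :=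
  Set.ncard {n : ℕ | 1 ≤ n ∧ n ≤ N ∧ ∃ p ∈ Q, (n : ZMod p) = b p}

/-- The affine image `(k / l) a - b` of the choice `a`: the class of `k l⁻¹ a(p) - b` modulo `p`. -/
def affine (k l b : ℕ) (a : (p : ℕ) → ZMod p) : (p : ℕ) → ZMod p :=
  fun p => (k : ZMod p) * (l : ZMod p)⁻¹ * a p - (b : ZMod p)

lemma coveredBy_affine {Q : Finset ℕ} (N k l b : ℕ) (a : (p : ℕ) → ZMod p)
    (hl : 0 < l) (hQ : ∀ p ∈ Q, p.Prime ∧ l < p) :
    coveredBy Q N (affine k l b a) = (covW Q a N k l b).card := by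
  classical
  have h1 : {n : ℕ | 1 ≤ n ∧ n ≤ N ∧ ∃ p ∈ Q, (n : ZMod p) = affine k l b a p}
      = (((Icc 1 N).filter fun n => n + b ∈ covW Q a N k l b : Finset ℕ) : Set ℕ) := by
    ext n
    rw [Set.mem_ofPred_eq, mem_coe, mem_filter, mem_Icc, covW, mem_filter, mem_Ioc]
    have key : ∀ p ∈ Q, ((n : ZMod p) = affine k l b a p ↔ Hit a k l (n + b) p) := by
      intro p hp
      rw [hit_iff (hQ p hp).1 hl (hQ p hp).2, affine, Nat.cast_add]
      constructor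
      · intro h
        rw [h]
        ring
      · intro h
        rw [← h]
        ring
    constructor
    · rintro ⟨h1, h2, p, hp, hn⟩
      exact ⟨⟨h1, h2⟩, ⟨by omega, by omega⟩, p, hp, (key p hp).mp hn⟩
    · rintro ⟨⟨h1, h2⟩, -, p, hp, hn⟩
      exact ⟨h1, h2, p, hp, (key p hp).mpr hn⟩
  rw [coveredBy, h1, Set.ncard_coe_finset]
  refine card_bij (fun n _ => n + b) ?_ ?_ ?_
  · intro n hn
    exact (mem_filter.mp hn).2
  · intro n _ m _ h
    omega
  · intro m hm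
    have hm' := hm
    rw [covW, mem_filter, mem_Ioc] at hm'
    refine ⟨m - b, ?_, by omega⟩
    rw [mem_filter, mem_Icc]
    refine ⟨⟨by omega, by omega⟩, ?_⟩
    have : m - b + b = m := by omega
    rw [this]
    exact hm

lemma coveredCount_eq_by (α : ℝ) (N : ℕ) (b : (p : ℕ) → ZMod p) :
    coveredCount α N b = coveredBy (PD α N) N b := by
  rw [coveredCount, coveredBy]
  congr 1
  ext n
  simp only [Set.mem_ofPred_eq, mem_PD]

lemma ev_log {β C : ℝ} (hβ : β < 1) (hC : 0 < C) : ∀ᶠ N : ℕ in atTop,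
    C * (N : ℝ) ^ β * (1 + Real.log N) ≤ N := by
  set γ : ℝ := (1 - β) / 2 with hγ
  have hγ0 : 0 < γ := by
    rw [hγ]
    linarith
  have h1 := (isLittleO_log_rpow_atTop hγ0).bound (show (0 : ℝ) < 1 by norm_num)
  have h2 := tendsto_natCast_atTop_atTop.eventually h1
  filter_upwards [h2, ev_const (2 * C) hγ0, ev_const 1 hγ0, eventually_ge_atTop 1]
    with N h2 h3 h4 h5
  have hN0 : (0 : ℝ) < N := by exact_mod_cast h5
  have h6 : Real.log N ≤ (N : ℝ) ^ γ := by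
    have := (le_abs_self _).trans h2
    rwa [one_mul, Real.norm_of_nonneg (by positivity)] at this
  have h7 : 1 + Real.log N ≤ 2 * (N : ℝ) ^ γ := by linarith
  have h0 : 0 ≤ 1 + Real.log N := by
    have : 0 ≤ Real.log (N : ℝ) := Real.log_nonneg (by exact_mod_cast h5)
    linarith
  calc C * (N : ℝ) ^ β * (1 + Real.log N) ≤ C * (N : ℝ) ^ β * (2 * (N : ℝ) ^ γ) := by gcongr
    _ = (2 * C) * ((N : ℝ) ^ β * (N : ℝ) ^ γ) := by ring
    _ ≤ (N : ℝ) ^ γ * ((N : ℝ) ^ β * (N : ℝ) ^ γ) := by gcongr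
    _ = N := by
      rw [← Real.rpow_add hN0, ← Real.rpow_add hN0]
      have : γ + (β + γ) = 1 := by
        rw [hγ]
        ring
      rw [this, Real.rpow_one]

lemma rpow_div_eq {N : ℕ} (hN : 1 ≤ N) (α q : ℝ) :
    q * N / (N : ℝ) ^ α = q * (N : ℝ) ^ (1 - α) := by
  have hN0 : (0 : ℝ) < N := by exact_mod_cast hN
  rw [Real.rpow_sub hN0, Real.rpow_one]
  ring

lemma rpow_div_eq2 {N : ℕ} (hN : 1 ≤ N) (α q : ℝ) :
    q * (N : ℝ) ^ 2 / ((N : ℝ) ^ α) ^ 2 = q * (N : ℝ) ^ (2 - 2 * α) := by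
  have hN0 : (0 : ℝ) < N := by exact_mod_cast hN
  rw [Real.rpow_sub hN0, Real.rpow_two]
  have : ((N : ℝ) ^ α) ^ 2 = (N : ℝ) ^ (2 * α) := by
    rw [← Real.rpow_natCast, ← Real.rpow_mul hN0.le]
    congr 1
    push_cast
    ring
  rw [this]
  ring

open Classical in
/-- **integral affine images** -/
theorem integer_affine {α : ℝ} (h0 : 0 < α) (h1 : α < 1) (δ : ℝ) (hδ : 0 < δ) :
    ∃ (c : ℝ) (N₀ : ℕ), 0 < c ∧ ∀ N : ℕ, N₀ ≤ N → ∀ a : (p : ℕ) → ZMod p,
      ∀ Q : Finset ℕ, (∀ p ∈ Q, InRange α N p) → ∀ K B : ℕ, 1 ≤ K → 1 ≤ B →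
      2 * (K : ℝ) ≤ (N : ℝ) ^ α →
      ((((Ico K (2 * K)) ×ˢ (range B)).filter fun x : ℕ × ℕ =>
        (coveredBy Q N (fun p => (x.1 : ZMod p) * a p - (x.2 : ZMod p)) : ℝ)
        < c * min (Q.card * (N : ℝ) ^ (1 - α))
          (K * max 1 ((B : ℝ) / N) * (N : ℝ) ^ (2 - 2 * α))).card : ℝ)
        ≤ δ * (K * B) := by
  set δ' : ℝ := min δ 1 with hδ'
  have hδ0 : 0 < δ' := lt_min hδ one_pos
  have hδ1 : δ' ≤ 1 := min_le_right _ _
  have hev := ((ev_const 4 h0).and (ev_const 4 (show 0 < 1 - α by linarith))).and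
    ((ev_log h1 (show 0 < 64 / δ' by positivity)).and (eventually_ge_atTop 1))
  obtain ⟨N₀, hN₀⟩ := eventually_atTop.1 hev
  refine ⟨δ' ^ 2 / 3000000, N₀, by positivity, fun N hN a Q hQ K B hK hB h2K => ?_⟩
  obtain ⟨⟨e1, e2⟩, e3, e4⟩ := hN₀ N hN
  have hN0 : (0 : ℝ) < N := by exact_mod_cast e4
  set P : ℝ := (N : ℝ) ^ α with hP
  have hQ' : ∀ p ∈ Q, p.Prime ∧ P ≤ p ∧ (p : ℝ) ≤ 2 * P := fun p hp =>
    ⟨(hQ p hp).1, (hQ p hp).2.1, (hQ p hp).2.2.le⟩
  have hN4 : 4 * P ≤ N := by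
    calc 4 * P ≤ (N : ℝ) ^ (1 - α) * (N : ℝ) ^ α := by gcongr
      _ = N := by rw [← Real.rpow_add hN0]; simp
  have hτ : ∀ m : ℕ, 1 ≤ m → m ≤ 2 * 1 * (B + N) →
      ((Ico 1 (2 * 1)).filter (· ∣ m)).card ≤ 1 := by
    intro m _ _
    refine (card_filter_le _ _).trans ?_
    rw [Nat.card_Ico]
  have hK0 : (0 : ℝ) < K := by exact_mod_cast hK
  have hB0 : (0 : ℝ) < B := by exact_mod_cast hB
  have hlog : 64 * P * ((1 : ℕ) : ℝ) * (1 + Real.log (2 * K)) ≤ δ' * N := by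
    have g1 : Real.log (2 * K) ≤ Real.log N :=
      Real.log_le_log (by positivity) (by linarith)
    have g2 : 64 / δ' * P * (1 + Real.log N) ≤ N := e3
    have g3 : 64 / δ' * P * (1 + Real.log N) * δ' ≤ N * δ' :=
      mul_le_mul_of_nonneg_right g2 hδ0.le
    have g4 : 64 / δ' * P * (1 + Real.log N) * δ' = 64 * P * (1 + Real.log N) := by
      field_simp
    rw [g4] at g3
    rw [Nat.cast_one, mul_one]
    have g5 : 64 * P * (1 + Real.log (2 * K)) ≤ 64 * P * (1 + Real.log N) := by gcongr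
    linarith
  have hmain := finite_windows (L := 1) (τ := 1) a (by linarith) hQ' hK le_rfl hB h2K
    (by push_cast; linarith) hN4 hδ0 hδ1 le_rfl hτ hlog
  have hinj : (((Ico K (2 * K)) ×ˢ (range B)).filter fun x : ℕ × ℕ =>
        (coveredBy Q N (fun p => (x.1 : ZMod p) * a p - (x.2 : ZMod p)) : ℝ)
        < δ' ^ 2 / 3000000 * min (Q.card * (N : ℝ) ^ (1 - α))
          (K * max 1 ((B : ℝ) / N) * (N : ℝ) ^ (2 - 2 * α))).card
      ≤ ((trip K 1 B).filter fun x => ((covW Q a N x.1 x.2.1 x.2.2).card : ℝ)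
        < δ' ^ 2 / (3000000 * ((1 : ℕ) : ℝ) ^ 2)
          * min (Q.card * N / P)
            (K * ((1 : ℕ) : ℝ) * max 1 ((B : ℝ) / N) * N ^ 2 / P ^ 2)).card := by
    refine card_le_card_of_injOn (fun x => (x.1, 1, x.2)) ?_ ?_
    · intro x hx
      rw [mem_coe, mem_filter, mem_product] at hx
      rw [mem_coe, mem_filter, trip, mem_product, mem_product]
      refine ⟨⟨hx.1.1, by simp, hx.1.2⟩, ?_⟩
      have hd : coveredBy Q N (fun p => (x.1 : ZMod p) * a p - (x.2 : ZMod p))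
          = (covW Q a N x.1 1 x.2).card := by
        rw [← coveredBy_affine N x.1 1 x.2 a one_pos fun p hp =>
          ⟨(hQ p hp).1, (hQ p hp).1.one_lt⟩]
        rw [coveredBy, coveredBy]
        congr 1
        ext n
        simp only [Set.mem_ofPred_eq, affine]
        constructor
        · rintro ⟨t1, t2, p, hp, t3⟩
          have : Fact p.Prime := ⟨(hQ p hp).1⟩
          exact ⟨t1, t2, p, hp, by simpa using t3⟩
        · rintro ⟨t1, t2, p, hp, t3⟩
          have : Fact p.Prime := ⟨(hQ p hp).1⟩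
          exact ⟨t1, t2, p, hp, by simpa using t3⟩
      have hk2 := hx.2
      rw [hd] at hk2
      rw [hP, rpow_div_eq e4, rpow_div_eq2 e4]
      simpa using hk2
    · intro x _ y _ hxy
      have h1 := (Prod.mk.inj hxy).1
      have h2 := (Prod.mk.inj (Prod.mk.inj hxy).2).2
      exact Prod.ext h1 h2
  have hinj' : (((((Ico K (2 * K)) ×ˢ (range B)).filter fun x : ℕ × ℕ =>
        (coveredBy Q N (fun p => (x.1 : ZMod p) * a p - (x.2 : ZMod p)) : ℝ)
        < δ' ^ 2 / 3000000 * min (Q.card * (N : ℝ) ^ (1 - α))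
          (K * max 1 ((B : ℝ) / N) * (N : ℝ) ^ (2 - 2 * α))).card
        : ℕ) : ℝ) ≤ δ' * (K * ((1 : ℕ) : ℝ) * B) := by
    refine le_trans ?_ hmain
    exact_mod_cast hinj
  refine hinj'.trans ?_
  rw [Nat.cast_one, mul_one]
  exact mul_le_mul_of_nonneg_right (min_le_left _ _) (by positivity)

open Classical in
/-- **rational affine images** -/
theorem rational_affine {α : ℝ} (h0 : 0 < α) (h1 : α < 1) (ε : ℝ) (hε : 0 < ε) :
    ∃ (η : ℝ) (N₀ : ℕ), 0 < η ∧ ∀ N : ℕ, N₀ ≤ N → ∀ a : (p : ℕ) → ZMod p,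
      ∀ Q : Finset ℕ, (∀ p ∈ Q, InRange α N p) → ∀ K L B : ℕ, 1 ≤ K → 1 ≤ L → 1 ≤ B →
      2 * (K : ℝ) ≤ (N : ℝ) ^ α → 2 * (L : ℝ) ≤ (N : ℝ) ^ α → B ≤ N ^ 2 →
      ((((Ico K (2 * K)) ×ˢ ((Ico L (2 * L)) ×ˢ (range B))).filter fun x : ℕ × ℕ × ℕ =>
        (coveredBy Q N (affine x.1 x.2.1 x.2.2 a) : ℝ) < (N : ℝ) ^ (-ε)
          * min (Q.card * (N : ℝ) ^ (1 - α))
            (K * L * max 1 ((B : ℝ) / N) * (N : ℝ) ^ (2 - 2 * α))).card : ℝ)
        ≤ (N : ℝ) ^ (-η) * (K * L * B) := by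
  set η : ℝ := min (ε / 5) ((1 - α) / 4) with hη
  have hη0 : 0 < η := lt_min (by positivity) (by linarith)
  have hηε : η ≤ ε / 5 := min_le_left _ _
  have hηα : η ≤ (1 - α) / 4 := min_le_right _ _
  obtain ⟨C, hC0, hC⟩ := H353.divisor_bound_real (η / 8) (by positivity)
  have hev := ((ev_const 4 h0).and (ev_const 4 (show 0 < 1 - α by linarith))).and
    ((ev_log (show α + 2 * η < 1 by linarith) (show (0 : ℝ) < 64 by norm_num)).and
      ((ev_const C (show 0 < η / 2 by positivity)).and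
        ((ev_const 3000000 hη0).and (eventually_ge_atTop 4))))
  obtain ⟨N₀, hN₀⟩ := eventually_atTop.1 hev
  refine ⟨η, N₀, hη0, fun N hN a Q hQ K L B hK hL hB h2K h2L hBN => ?_⟩
  obtain ⟨⟨e1, e2⟩, e3, e5, e6, e7⟩ := hN₀ N hN
  have e4 : 1 ≤ N := by omega
  have hN0 : (0 : ℝ) < N := by exact_mod_cast e4
  have hN1 : (1 : ℝ) ≤ N := by exact_mod_cast e4
  set P : ℝ := (N : ℝ) ^ α with hP
  have hP0 : 0 < P := by linarith
  have hQ' : ∀ p ∈ Q, p.Prime ∧ P ≤ p ∧ (p : ℝ) ≤ 2 * P := fun p hp =>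
    ⟨(hQ p hp).1, (hQ p hp).2.1, (hQ p hp).2.2.le⟩
  have hN4 : 4 * P ≤ N := by
    calc 4 * P ≤ (N : ℝ) ^ (1 - α) * (N : ℝ) ^ α := by gcongr
      _ = N := by rw [← Real.rpow_add hN0]; simp
  have hK0 : (0 : ℝ) < K := by exact_mod_cast hK
  have hL0 : (0 : ℝ) < L := by exact_mod_cast hL
  set τ : ℕ := ⌊(N : ℝ) ^ η⌋₊ with hτd
  have hτ1 : 1 ≤ τ := by
    rw [hτd]
    apply Nat.le_floor
    rw [Nat.cast_one]
    linarith
  have hτ2 : (τ : ℝ) ≤ (N : ℝ) ^ η := Nat.floor_le (by positivity)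
  have hτ : ∀ m : ℕ, 1 ≤ m → m ≤ 2 * L * (B + N) →
      ((Ico L (2 * L)).filter (· ∣ m)).card ≤ τ := by
    intro m hm hm2
    have g1 : ((Ico L (2 * L)).filter (· ∣ m)).card ≤ m.divisors.card := by
      refine card_le_card fun l hl => ?_
      rw [mem_filter] at hl
      rw [Nat.mem_divisors]
      exact ⟨hl.2, by omega⟩
    refine g1.trans ?_
    rw [hτd]
    apply Nat.le_floor
    refine (hC m (by omega)).trans ?_
    have g2 : (m : ℝ) ≤ (N : ℝ) ^ (4 : ℝ) := by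
      have hLN : 2 * L ≤ N := by
        have : (2 : ℝ) * L ≤ N := by linarith
        exact_mod_cast this
      have g3 : m ≤ N * (N ^ 2 + N) :=
        hm2.trans (Nat.mul_le_mul hLN (Nat.add_le_add_right hBN _))
      have g4 : N * (N ^ 2 + N) ≤ N ^ 4 := by
        have g5 : N ^ 2 + N ≤ 2 * N ^ 2 := by nlinarith
        have g6 : 2 * N ^ 2 ≤ N ^ 3 := by
          have : N ^ 3 = N * N ^ 2 := by ring
          rw [this]
          exact Nat.mul_le_mul_right _ (by omega)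
        calc N * (N ^ 2 + N) ≤ N * N ^ 3 := Nat.mul_le_mul_left _ (g5.trans g6)
          _ = N ^ 4 := by ring
      have g7 : (m : ℝ) ≤ (N : ℝ) ^ 4 := by exact_mod_cast g3.trans g4
      have g8 : (N : ℝ) ^ (4 : ℝ) = (N : ℝ) ^ 4 := by
        rw [← Real.rpow_natCast]
        norm_num
      rw [g8]
      exact g7
    calc C * (m : ℝ) ^ (η / 8) ≤ (N : ℝ) ^ (η / 2) * ((N : ℝ) ^ (4 : ℝ)) ^ (η / 8) := by gcongr
      _ = (N : ℝ) ^ η := by
        rw [← Real.rpow_mul hN0.le, ← Real.rpow_add hN0]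
        congr 1
        ring
  have hδ0 : 0 < (N : ℝ) ^ (-η) := Real.rpow_pos_of_pos hN0 _
  have hδ1 : (N : ℝ) ^ (-η) ≤ 1 := Real.rpow_le_one_of_one_le_of_nonpos hN1 (by linarith)
  have hlog : 64 * P * (τ : ℝ) * (1 + Real.log (2 * K)) ≤ (N : ℝ) ^ (-η) * N := by
    have g1 : Real.log (2 * K) ≤ Real.log N :=
      Real.log_le_log (by positivity) (by linarith)
    have g0 : 0 ≤ 1 + Real.log (2 * K) := by
      have : 0 ≤ Real.log (2 * (K : ℝ)) := Real.log_nonneg (by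
        have : (1 : ℝ) ≤ K := by exact_mod_cast hK
        linarith)
      linarith
    have g2 : 64 * P * (τ : ℝ) * (1 + Real.log (2 * K))
        ≤ 64 * P * (N : ℝ) ^ η * (1 + Real.log N) := by gcongr
    have g3 : 64 * P * (N : ℝ) ^ η * (1 + Real.log N)
        = (N : ℝ) ^ (-η) * (64 * (N : ℝ) ^ (α + 2 * η) * (1 + Real.log N)) := by
      have : (N : ℝ) ^ (α + 2 * η) = P * (N : ℝ) ^ η * (N : ℝ) ^ η := by
        rw [hP, ← Real.rpow_add hN0, ← Real.rpow_add hN0]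
        congr 1
        ring
      rw [this]
      have h' : (N : ℝ) ^ (-η) * (N : ℝ) ^ η = 1 := by
        rw [← Real.rpow_add hN0]
        simp
      calc 64 * P * (N : ℝ) ^ η * (1 + Real.log N)
          = ((N : ℝ) ^ (-η) * (N : ℝ) ^ η) * (64 * P * (N : ℝ) ^ η * (1 + Real.log N)) := by
            rw [h', one_mul]
        _ = _ := by ring
    rw [g3] at g2
    exact g2.trans (mul_le_mul_of_nonneg_left e3 hδ0.le)
  have hmain := finite_windows (L := L) (τ := τ) a (by linarith) hQ' hK hL hB h2K h2L hN4 hδ0 hδ1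
    hτ1 hτ hlog
  refine le_trans ?_ hmain
  have hsub : (((Ico K (2 * K)) ×ˢ ((Ico L (2 * L)) ×ˢ (range B))).filter fun x : ℕ × ℕ × ℕ =>
        (coveredBy Q N (affine x.1 x.2.1 x.2.2 a) : ℝ) < (N : ℝ) ^ (-ε)
          * min (Q.card * (N : ℝ) ^ (1 - α))
            (K * L * max 1 ((B : ℝ) / N) * (N : ℝ) ^ (2 - 2 * α)))
      ⊆ (trip K L B).filter fun x => ((covW Q a N x.1 x.2.1 x.2.2).card : ℝ)
        < ((N : ℝ) ^ (-η)) ^ 2 / (3000000 * (τ : ℝ) ^ 2)
          * min (Q.card * N / P) (K * L * max 1 ((B : ℝ) / N) * N ^ 2 / P ^ 2) := by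
    intro x hx
    rw [mem_filter] at hx ⊢
    refine ⟨hx.1, ?_⟩
    have hxl := (mem_Ico.mp (mem_product.mp (mem_product.mp hx.1).2).1)
    have hd : coveredBy Q N (affine x.1 x.2.1 x.2.2 a) = (covW Q a N x.1 x.2.1 x.2.2).card := by
      apply coveredBy_affine
      · omega
      · intro p hp
        refine ⟨(hQ p hp).1, ?_⟩
        have g1 : (x.2.1 : ℝ) < 2 * L := by exact_mod_cast hxl.2
        have g2 : (x.2.1 : ℝ) < p := lt_of_lt_of_le (g1.trans_le h2L) (hQ p hp).2.1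
        exact_mod_cast g2
    rw [← hd, hP, rpow_div_eq e4, rpow_div_eq2 e4]
    refine lt_of_lt_of_le hx.2 ?_
    have hmin0 : 0 ≤ min ((Q.card : ℝ) * (N : ℝ) ^ (1 - α))
        (K * L * max 1 ((B : ℝ) / N) * (N : ℝ) ^ (2 - 2 * α)) :=
      le_min (by positivity) (by positivity)
    refine mul_le_mul_of_nonneg_right ?_ hmin0
    have hτ0 : (0 : ℝ) < τ := by exact_mod_cast hτ1
    rw [le_div_iff₀ (by positivity)]
    calc (N : ℝ) ^ (-ε) * (3000000 * (τ : ℝ) ^ 2)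
        ≤ (N : ℝ) ^ (-ε) * ((N : ℝ) ^ η * ((N : ℝ) ^ η) ^ 2) := by gcongr
      _ = (N : ℝ) ^ (-ε + 3 * η) := by
        rw [← Real.rpow_natCast ((N : ℝ) ^ η) 2, ← Real.rpow_mul hN0.le, ← Real.rpow_add hN0,
          ← Real.rpow_add hN0]
        congr 1
        push_cast
        ring
      _ ≤ (N : ℝ) ^ (-η * 2) := Real.rpow_le_rpow_of_exponent_le hN1 (by linarith)
      _ = ((N : ℝ) ^ (-η)) ^ 2 := by
        rw [Real.rpow_mul hN0.le, Real.rpow_two]
  exact_mod_cast card_le_card hsub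

end Pool.Agent.V7H18.DC
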